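import Mathlib.SetTheory.ZFC.Ordinal
import Mathlib.SetTheory.ZFC.VonNeumann
import Mathlib.SetTheory.Cardinal.Aleph
import Mathlib.Topology.Continuous
import Mathlib.Topology.Order
import Mathlib.Data.Fin.VecNotation

/-!
# MP_dc7230_lc: the definitions used in the statement

The universe of sets is `Type` (cardinals in `Cardinal.{0}`, sets in `ZFSet.{0}`).
-/

namespace Pool.MP_dc7230_lc

open Set

/-! ### Trees -/

/-- The well-ordered set `ω₂` (its elements are used as the ordinals below `ω₂`). -/
abbrev W : Type := (Ordinal.omega 2).ToType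

/-- The elements of `^{<ω₂} ω₂`: a length `α < ω₂` and a function from `{i : i < α}` to `ω₂`. -/
structure Seq where
  len : W
  val : Iio len → W

/-- The restriction `x ↾ α` of `x : ω₂ → ω₂`. -/
def res (x : W → W) (α : W) : Seq := ⟨α, fun i => x i⟩

/-- The restriction of a sequence to a smaller length. -/
def Seq.cut (s : Seq) (β : W) (h : β ≤ s.len) : Seq := ⟨β, fun i => s.val ⟨i, i.2.trans_le h⟩⟩

/-- A tree is a set of sequences closed under initial segments. -/
def IsTree (S : Set Seq) : Prop := ∀ s ∈ S, ∀ β (h : β ≤ s.len), s.cut β h ∈ S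

/-- The body `[S]`: the set of all `x : ω₂ → ω₂` all of whose restrictions are in `S`. -/
def body (S : Set Seq) : Set (W → W) := {x | ∀ α, res x α ∈ S}

/-- An `ω₂`-Kurepa tree: a tree of height `ω₂` with levels of size at most `ℵ₁` and with more
than `ℵ₂` cofinal branches. -/
structure IsKurepa (S : Set Seq) : Prop where
  tree : IsTree S
  height : ∀ α : W, ∃ s ∈ S, s.len = α
  level : ∀ α : W, Cardinal.mk {s : Seq // s ∈ S ∧ s.len = α} ≤ Cardinal.aleph 1
  branches : Cardinal.aleph 2 < Cardinal.mk (body S)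

/-- The bounded topology on `^{ω₂} ω₂`: it is generated by the sets `N_σ`. -/
abbrev bdd : TopologicalSpace (W → W) :=
  TopologicalSpace.generateFrom {N | ∃ σ : Seq, N = {x | res x σ.len = σ}}

/-- `[S]`, with the subspace topology, is a continuous image of `^{ω₂} ω₂`. -/
def IsContImage (S : Set Seq) : Prop :=
  ∃ f : (W → W) → body S, @Continuous _ _ bdd (bdd.induced Subtype.val) f ∧ Function.Surjective f

/-! ### The constructible universe -/

/-- First-order formulas of the language of set theory (`=`, `∈`) with free variables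
among `x₀, …, x_{n-1}`.  In `all φ` the new variable bound by the quantifier is `x₀`, the
free variables of `all φ` being shifted by one inside `φ`. -/
inductive Fml : ℕ → Type
  | bot {n : ℕ} : Fml n
  | eq {n : ℕ} (i j : Fin n) : Fml n
  | mem {n : ℕ} (i j : Fin n) : Fml n
  | imp {n : ℕ} (φ ψ : Fml n) : Fml n
  | all {n : ℕ} (φ : Fml (n + 1)) : Fml n

/-- `Sat E φ v`: the structure `(E, ∈)` satisfies `φ` at the assignment `v`
(quantifiers range over the elements of `E`). -/
def Sat (E : ZFSet.{0}) : {n : ℕ} → Fml n → (Fin n → ZFSet.{0}) → Prop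
  | _, .bot, _ => False
  | _, .eq i j, v => v i = v j
  | _, .mem i j, v => v i ∈ v j
  | _, .imp φ ψ, v => Sat E φ v → Sat E ψ v
  | _, .all φ, v => ∀ x ∈ E, Sat E φ (Fin.cons x v)

/-- The definable power set of `X`: the set of all subsets of `X` which are first-order definable
with parameters in the structure `(X, ∈)`. -/
noncomputable def DefSet (X : ZFSet.{0}) : ZFSet.{0} :=
  ZFSet.sep (fun y => ∃ (n : ℕ) (φ : Fml (n + 1)) (p : Fin n → ZFSet.{0}), (∀ i, p i ∈ X) ∧
    ∀ z ∈ X, z ∈ y ↔ Sat X φ (Fin.cons z p)) (ZFSet.powerset X)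

/-- The levels of the constructible hierarchy: `L_α = ⋃ β < α, DefSet L_β`, that is
`L_0 = ∅`, `L_{β+1} = DefSet L_β` and `L_α = ⋃ β < α, L_β` for limit ordinals `α`. -/
noncomputable def Lset (α : Ordinal.{0}) : ZFSet.{0} :=
  ZFSet.iUnion (fun β : Iio α => DefSet (Lset β))
termination_by α
decreasing_by exact β.2

/-- The class `L` of constructible sets. -/
def IsL (x : ZFSet.{0}) : Prop := ∃ α, x ∈ Lset α

/-- The ordinal `lam` is an inaccessible cardinal in `L`: it is uncountable, regular (no function
`f ∈ L` from an ordinal `β < lam` to `lam` is unbounded) and a strong limit (for `ν < lam` there is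
no injective function `f ∈ L` from `lam` to the power set of `ν`, i.e. not `lam ≤ 2 ^ ν`). -/
structure IsInaccessibleInL (lam : Ordinal.{0}) : Prop where
  uncountable : Ordinal.omega0 < lam
  regular : ∀ β < lam, ∀ f, IsL f → ZFSet.IsFunc β.toZFSet lam.toZFSet f →
    ∃ γ < lam, ∀ x y, ZFSet.pair x y ∈ f → y ∈ γ.toZFSet
  strongLimit : ∀ ν < lam, ¬ ∃ f, IsL f ∧ ZFSet.IsFunc lam.toZFSet (ZFSet.powerset ν.toZFSet) f ∧
    ∀ x x' y, ZFSet.pair x y ∈ f → ZFSet.pair x' y ∈ f → x = x'

end Pool.MP_dc7230_lc
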