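import Mathlib
import Pool.Agent.Lib.MP_dc7230_lc.Defs

/-!
# MP_dc7230_lc: the levels of the constructible hierarchy
-/

namespace Pool.MP_dc7230_lc

open Set

lemma mem_DefSet {X y : ZFSet.{0}} : y ∈ DefSet X ↔ y ⊆ X ∧ ∃ (n : ℕ) (φ : Fml (n + 1))
    (p : Fin n → ZFSet.{0}), (∀ i, p i ∈ X) ∧ ∀ z ∈ X, z ∈ y ↔ Sat X φ (Fin.cons z p) := by
  unfold DefSet
  rw [ZFSet.mem_sep, ZFSet.mem_powerset]

lemma mem_Lset {α : Ordinal.{0}} {x : ZFSet.{0}} :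
    x ∈ Lset α ↔ ∃ β < α, x ∈ DefSet (Lset β) := by
  rw [Lset, ZFSet.mem_iUnion]
  constructor
  · rintro ⟨β, h⟩
    exact ⟨β.1, β.2, h⟩
  · rintro ⟨β, h1, h2⟩
    exact ⟨⟨β, h1⟩, h2⟩

lemma Lset_mono {α β : Ordinal.{0}} (h : α ≤ β) {x : ZFSet.{0}} (hx : x ∈ Lset α) : x ∈ Lset β := by
  rw [mem_Lset] at hx ⊢
  obtain ⟨γ, h1, h2⟩ := hx
  exact ⟨γ, h1.trans_le h, h2⟩

lemma Lset_trans {α : Ordinal.{0}} {x y : ZFSet.{0}} (hx : x ∈ Lset α) (hy : y ∈ x) :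
    y ∈ Lset α := by
  obtain ⟨β, h1, h2⟩ := mem_Lset.1 hx
  exact Lset_mono h1.le ((mem_DefSet.1 h2).1 hy)

lemma mem_Lset_succ {α : Ordinal.{0}} {x : ZFSet.{0}} (h : x ∈ DefSet (Lset α)) :
    x ∈ Lset (α + 1) := mem_Lset.2 ⟨α, by
  rw [← Order.succ_eq_add_one]; exact Order.lt_succ α, h⟩

/-- the formula saying that `x₀` is an ordinal -/
def ordF {n : ℕ} : Fml (n + 1) :=
  -- not (trans -> not trans2)
  .imp (.imp (.all (.imp (.mem 0 1) (.all (.imp (.mem 0 1) (.mem 0 2)))))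
    (.imp (.all (.imp (.mem 0 1) (.all (.imp (.mem 0 1) (.all (.imp (.mem 0 1) (.mem 0 2)))))))
      .bot)) .bot

lemma isOrdinal_iff {x : ZFSet.{0}} : x.IsOrdinal ↔ (∀ y ∈ x, ∀ w ∈ y, w ∈ x) ∧
    (∀ y ∈ x, ∀ w ∈ y, ∀ u ∈ w, u ∈ y) := by
  constructor
  · intro h
    exact ⟨fun y hy w hw => h.1 y hy hw, fun y hy w hw u hu => h.2 hu hw hy⟩
  · rintro ⟨h1, h2⟩
    exact ⟨fun y hy w hw => h1 y hy w hw, fun {u w y} hu hw hy => h2 y hy w hw u hu⟩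

lemma not_imp_not_iff {a b : Prop} : ((a → (b → False)) → False) ↔ a ∧ b := by
  tauto

lemma sat_ordF {X : ZFSet.{0}} (hX : ∀ x ∈ X, ∀ y ∈ x, y ∈ X) {n : ℕ} {z : ZFSet.{0}}
    {p : Fin n → ZFSet.{0}} (hz : z ∈ X) : Sat X ordF (Fin.cons z p) ↔ z.IsOrdinal := by
  rw [isOrdinal_iff]
  have : Sat X ordF (Fin.cons z p) ↔ (∀ y ∈ X, y ∈ z → ∀ w ∈ X, w ∈ y → w ∈ z) ∧
      (∀ y ∈ X, y ∈ z → ∀ w ∈ X, w ∈ y → ∀ u ∈ X, u ∈ w → u ∈ y) := by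
    exact not_imp_not_iff
  rw [this]
  constructor
  · rintro ⟨h1, h2⟩
    refine ⟨fun y hy w hw => h1 y (hX z hz y hy) hy w (hX y (hX z hz y hy) w hw) hw,
      fun y hy w hw u hu => ?_⟩
    have hy' := hX z hz y hy
    have hw' := hX y hy' w hw
    exact h2 y hy' hy w hw' hw u (hX w hw' u hu) hu
  · rintro ⟨h1, h2⟩
    exact ⟨fun y _ hy w _ hw => h1 y hy w hw, fun y _ hy w _ hw u _ hu => h2 y hy w hw u hu⟩

lemma ord_mem_Lset {α ζ : Ordinal.{0}} : ζ.toZFSet ∈ Lset α ↔ ζ < α := by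
  induction α using WellFoundedLT.induction generalizing ζ with
  | _ α ih =>
    constructor
    · intro h
      obtain ⟨β, hβ, h1⟩ := mem_Lset.1 h
      have h2 : ζ ≤ β := by
        by_contra hcon
        push Not at hcon
        have := (mem_DefSet.1 h1).1 (Ordinal.toZFSet_mem_toZFSet_iff.2 hcon)
        exact lt_irrefl _ ((ih β hβ).1 this)
      exact h2.trans_lt hβ
    · intro h
      refine mem_Lset.2 ⟨ζ, h, mem_DefSet.2 ⟨fun x hx => ?_, 0, ordF, Fin.elim0,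
        fun i => i.elim0, fun z hz => ?_⟩⟩
      · obtain ⟨ε, hε, rfl⟩ := Ordinal.mem_toZFSet_iff.1 hx
        exact (ih ζ h).2 hε
      · rw [sat_ordF (fun x hx y hy => Lset_trans hx hy) hz]
        constructor
        · intro hz'
          obtain ⟨ε, hε, rfl⟩ := Ordinal.mem_toZFSet_iff.1 hz'
          exact ZFSet.isOrdinal_toZFSet _
        · intro hz'
          obtain ⟨ε, rfl⟩ := ZFSet.isOrdinal_iff_mem_range_toZFSet.1 hz'
          exact Ordinal.toZFSet_mem_toZFSet_iff.2 ((ih ζ h).1 hz)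

end Pool.MP_dc7230_lc
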