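import Mathlib
import Pool.Agent.Lib.MP_dc7230_lc.Defs

/-!
# MP_dc7230_lc: structures with two binary relations, uniformly definable relations,
elementary maps
-/

namespace Pool.MP_dc7230_lc

open Set FirstOrder
open FirstOrder.Language hiding card

/-- the relation symbols -/
inductive RSym : ℕ → Type
  | mem : RSym 2
  | lev : RSym 2

/-- the language -/
def LR : FirstOrder.Language.{0, 0} := ⟨fun _ => Empty, RSym⟩

instance : Countable LR.Symbols := by
  have h1 : Countable (Σ l, LR.Functions l) := by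
    have : IsEmpty (Σ l, LR.Functions l) := ⟨fun x => x.2.elim⟩
    infer_instance
  have h2 : Countable (Σ l, LR.Relations l) := by
    have : Function.Injective (fun x : Σ l, LR.Relations l =>
        (match x with | ⟨_, RSym.mem⟩ => 0 | ⟨_, RSym.lev⟩ => 1 : ℕ)) := by
      rintro ⟨_, _ | _⟩ ⟨_, _ | _⟩ h
      · rfl
      · simp at h
      · simp at h
      · rfl
    exact this.countable
  unfold Language.Symbols
  infer_instance

/-- structures -/
structure Str : Type 2 where
  N : Type 1
  E : N → N → Prop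
  R : N → N → Prop

instance (M : Str) : LR.Structure M.N where
  funMap f := Empty.elim f
  RelMap {n} r := match n, r with
    | _, RSym.mem => fun v => M.E (v 0) (v 1)
    | _, RSym.lev => fun v => M.R (v 0) (v 1)

/-- uniformly definable families of relations -/
def UD (α : Type) (P : ∀ M : Str, (α → M.N) → Prop) : Prop :=
  ∃ φ : LR.Formula α, ∀ (M : Str) (v : α → M.N), φ.Realize v ↔ P M v

namespace UD
variable {α β γ : Type} {P Q : ∀ M : Str, (α → M.N) → Prop}

lemma congr (h : UD α P) (hPQ : ∀ M v, P M v ↔ Q M v) : UD α Q := by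
  obtain ⟨φ, hφ⟩ := h
  exact ⟨φ, fun M v => (hφ M v).trans (hPQ M v)⟩

lemma mem (a b : α) : UD α (fun M v => M.E (v a) (v b)) := by
  refine ⟨Relations.formula₂ (L := LR) RSym.mem (Term.var a) (Term.var b), fun M v => ?_⟩
  rw [Formula.realize_rel₂]
  exact Iff.rfl

lemma lev (a b : α) : UD α (fun M v => M.R (v a) (v b)) := by
  refine ⟨Relations.formula₂ (L := LR) RSym.lev (Term.var a) (Term.var b), fun M v => ?_⟩
  rw [Formula.realize_rel₂]
  exact Iff.rfl

lemma eq (a b : α) : UD α (fun M v => v a = v b) := by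
  refine ⟨Term.equal (Term.var a) (Term.var b), fun M v => ?_⟩
  rw [Formula.realize_equal]
  exact Iff.rfl

lemma not (h : UD α P) : UD α (fun M v => ¬ P M v) := by
  obtain ⟨φ, hφ⟩ := h
  exact ⟨φ.not, fun M v => by rw [Formula.realize_not, hφ]⟩

lemma imp (h : UD α P) (h' : UD α Q) : UD α (fun M v => P M v → Q M v) := by
  obtain ⟨φ, hφ⟩ := h
  obtain ⟨ψ, hψ⟩ := h'
  exact ⟨φ.imp ψ, fun M v => by rw [Formula.realize_imp, hφ, hψ]⟩

lemma and (h : UD α P) (h' : UD α Q) : UD α (fun M v => P M v ∧ Q M v) := by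
  obtain ⟨φ, hφ⟩ := h
  obtain ⟨ψ, hψ⟩ := h'
  exact ⟨φ ⊓ ψ, fun M v => by rw [Formula.realize_inf, hφ, hψ]⟩

lemma or (h : UD α P) (h' : UD α Q) : UD α (fun M v => P M v ∨ Q M v) := by
  obtain ⟨φ, hφ⟩ := h
  obtain ⟨ψ, hψ⟩ := h'
  exact ⟨φ ⊔ ψ, fun M v => by rw [Formula.realize_sup, hφ, hψ]⟩

lemma iff (h : UD α P) (h' : UD α Q) : UD α (fun M v => P M v ↔ Q M v) :=
  ((h.imp h').and (h'.imp h)).congr fun _ _ => ⟨fun h => ⟨h.1, h.2⟩, fun h => ⟨h.1, h.2⟩⟩

lemma false : UD α (fun _ _ => False) := ⟨⊥, fun _ _ => Iff.rfl⟩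

lemma comp (f : α → β) (h : UD α P) : UD β (fun M v => P M (fun a => v (f a))) := by
  obtain ⟨φ, hφ⟩ := h
  exact ⟨φ.relabel f, fun M v => by rw [Formula.realize_relabel, hφ]; rfl⟩

lemma exs [Finite γ] {P : ∀ M : Str, (α ⊕ γ → M.N) → Prop} (h : UD (α ⊕ γ) P) :
    UD α (fun M v => ∃ w : γ → M.N, P M (Sum.elim v w)) := by
  obtain ⟨φ, hφ⟩ := h
  refine ⟨φ.iExs γ, fun M v => ?_⟩
  rw [Formula.realize_iExs]
  exact exists_congr fun w => hφ M _

lemma alls [Finite γ] {P : ∀ M : Str, (α ⊕ γ → M.N) → Prop} (h : UD (α ⊕ γ) P) :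
    UD α (fun M v => ∀ w : γ → M.N, P M (Sum.elim v w)) := by
  obtain ⟨φ, hφ⟩ := h
  refine ⟨φ.iAlls γ, fun M v => ?_⟩
  rw [Formula.realize_iAlls]
  exact forall_congr' fun w => hφ M _

lemma ex {P : ∀ M : Str, (Option α → M.N) → Prop} (h : UD (Option α) P) :
    UD α (fun M v => ∃ x : M.N, P M (fun o => o.elim x v)) := by
  have h1 := (h.comp (fun o : Option α => (o.elim (Sum.inr ()) Sum.inl : α ⊕ Unit))).exs
  refine h1.congr fun M v => ⟨?_, ?_⟩
  · rintro ⟨w, hw⟩
    refine ⟨w (), ?_⟩
    convert hw using 1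
    funext o
    cases o <;> rfl
  · rintro ⟨x, hx⟩
    refine ⟨fun _ => x, ?_⟩
    convert hx using 1
    funext o
    cases o <;> rfl

lemma all {P : ∀ M : Str, (Option α → M.N) → Prop} (h : UD (Option α) P) :
    UD α (fun M v => ∀ x : M.N, P M (fun o => o.elim x v)) := by
  refine h.not.ex.not.congr fun M v => ?_
  push Not
  rfl

lemma forall_fin {ι : Type} [Finite ι] {P : ι → ∀ M : Str, (α → M.N) → Prop}
    (h : ∀ i, UD α (P i)) : UD α (fun M v => ∀ i, P i M v) := by
  choose φ hφ using h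
  refine ⟨Formula.iInf φ, fun M v => ?_⟩
  rw [Formula.realize_iInf]
  exact forall_congr' fun i => hφ i M v

end UD

/-- elementary maps -/
def El (M M' : Str) (j : M.N → M'.N) : Prop :=
  ∀ (n : ℕ) (φ : LR.Formula (Fin n)) (v : Fin n → M.N), φ.Realize (j ∘ v) ↔ φ.Realize v

namespace El
variable {M M' M'' : Str} {j : M.N → M'.N}

lemma formula (h : El M M' j) {α : Type} [Finite α] (φ : LR.Formula α) (v : α → M.N) :
    φ.Realize (j ∘ v) ↔ φ.Realize v := by
  obtain ⟨n, ⟨e⟩⟩ := Finite.exists_equiv_fin α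
  have := h n (φ.relabel e) (v ∘ e.symm)
  rw [Formula.realize_relabel, Formula.realize_relabel] at this
  have h1 : (j ∘ v ∘ e.symm) ∘ e = j ∘ v := by
    funext a
    simp
  have h2 : (v ∘ e.symm) ∘ e = v := by
    funext a
    simp
  rwa [h1, h2] at this

lemma ud (h : El M M' j) {α : Type} [Finite α] {P : ∀ M : Str, (α → M.N) → Prop} (hP : UD α P)
    (v : α → M.N) : P M' (fun a => j (v a)) ↔ P M v := by
  obtain ⟨φ, hφ⟩ := hP
  rw [← hφ, ← hφ]
  exact h.formula φ v

lemma E (h : El M M' j) {x y : M.N} : M'.E (j x) (j y) ↔ M.E x y :=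
  h.ud (UD.mem (0 : Fin 2) 1) ![x, y]

lemma R (h : El M M' j) {x y : M.N} : M'.R (j x) (j y) ↔ M.R x y :=
  h.ud (UD.lev (0 : Fin 2) 1) ![x, y]

lemma inj (h : El M M' j) : Function.Injective j := by
  intro x y hxy
  exact (h.ud (UD.eq (0 : Fin 2) 1) ![x, y]).1 hxy

lemma comp {k : M'.N → M''.N} (hk : El M' M'' k) (h : El M M' j) : El M M'' (k ∘ j) := by
  intro n φ v
  rw [← h n φ v]
  exact hk n φ (j ∘ v)

lemma of_comp {k : M'.N → M''.N} (hk : El M' M'' k) (h : El M M'' (k ∘ j)) : El M M' j := by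
  intro n φ v
  rw [← h n φ v]
  exact (hk n φ (j ∘ v)).symm

lemma id : El M M (fun x => x) := fun _ _ _ => Iff.rfl

end El

/-- substructures -/
def Str.sub (M : Str) (X : Set M.N) : Str := ⟨X, fun x y => M.E x y, fun x y => M.R x y⟩

lemma El.bdd {M M' : Str} {j : M.N → M'.N} (h : El M M' j) {n : ℕ}
    (ψ : LR.BoundedFormula Empty n) (v : Fin n → M.N) :
    ψ.Realize (default : Empty → M'.N) (j ∘ v) ↔ ψ.Realize (default : Empty → M.N) v := by
  have h4 := h n (ψ.toFormula.relabel (Sum.elim Empty.elim (fun x => x))) v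
  rw [Formula.realize_relabel, Formula.realize_relabel,
    BoundedFormula.realize_toFormula, BoundedFormula.realize_toFormula] at h4
  have e1 : ((j ∘ v) ∘ Sum.elim Empty.elim (fun x => x)) ∘ Sum.inl = (default : Empty → M'.N) :=
    funext fun a => a.elim
  have e2 : (v ∘ Sum.elim Empty.elim (fun x => x)) ∘ Sum.inl = (default : Empty → M.N) :=
    funext fun a => a.elim
  rw [e1, e2] at h4
  exact h4

lemma realize_term_aux {M M' : Str} (j : M.N → M'.N) {n : ℕ} (t : LR.Term (Empty ⊕ Fin n))
    (xs : Fin n → M.N) : t.realize (Sum.elim (default : Empty → M'.N) (j ∘ xs)) =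
      j (t.realize (Sum.elim (default : Empty → M.N) xs)) := by
  cases t with
  | var a =>
    rcases a with a | a
    · exact a.elim
    · rfl
  | func f _ => exact Empty.elim f

lemma El_of_bdd {M M' : Str} {j : M.N → M'.N} (h : ∀ (n : ℕ) (φ : LR.BoundedFormula Empty n)
    (xs : Fin n → M.N), φ.Realize (default : Empty → M'.N) (j ∘ xs) ↔
      φ.Realize (default : Empty → M.N) xs) : El M M' j := by
  intro n φ v
  rw [← Formula.realize_relabel_sumInr φ (v := (default : Empty → M'.N)),
    ← Formula.realize_relabel_sumInr φ (v := (default : Empty → M.N))]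
  exact h _ _ _

/-- a map preserving the atomic relations and satisfying a directedness condition is elementary -/
theorem El_of {I : Type*} {M : I → Str} {M' : Str} (j : ∀ i, (M i).N → M'.N)
    (le : I → I → Prop) (jj : ∀ i k, (M i).N → (M k).N)
    (hcomm : ∀ i k, le i k → ∀ x, j k (jj i k x) = j i x)
    (hEl : ∀ i k, le i k → El (M i) (M k) (jj i k))
    (hcov : ∀ i, ∀ y : M'.N, ∃ k, le i k ∧ ∃ x, j k x = y)
    (hE : ∀ i x y, M'.E (j i x) (j i y) ↔ (M i).E x y)
    (hR : ∀ i x y, M'.R (j i x) (j i y) ↔ (M i).R x y)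
    (hinj : ∀ i, Function.Injective (j i)) : ∀ i, El (M i) M' (j i) := by
  intro i
  refine El_of_bdd fun n φ => ?_
  induction φ generalizing i with
  | falsum => exact fun _ => Iff.rfl
  | equal t₁ t₂ =>
    intro xs
    simp only [BoundedFormula.Realize, realize_term_aux]
    exact (hinj i).eq_iff
  | rel r ts =>
    intro xs
    simp only [BoundedFormula.Realize, realize_term_aux]
    cases r with
    | mem => exact hE i _ _
    | lev => exact hR i _ _
  | imp φ ψ ih₁ ih₂ =>
    intro xs
    simp only [BoundedFormula.realize_imp, ih₁, ih₂]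
  | all φ ih =>
    intro xs
    constructor
    · intro h
      simp only [BoundedFormula.realize_all] at h ⊢
      intro a
      have := h (j i a)
      rwa [← Fin.comp_snoc, ih] at this
    · intro h
      rw [BoundedFormula.realize_all]
      intro y
      obtain ⟨k, hk, x, rfl⟩ := hcov i y
      rw [← (hEl i k hk).bdd, BoundedFormula.realize_all] at h
      have h5 := h x
      rw [← ih k, Fin.comp_snoc] at h5
      have h6 : j k ∘ jj i k ∘ xs = j i ∘ xs := funext fun a => hcomm i k hk _
      rwa [h6] at h5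

/-- the Tarski–Vaught test -/
theorem El_sub {M : Str} {X : Set M.N} (tv : ∀ (n : ℕ) (φ : LR.Formula (Fin n ⊕ Unit))
    (x : Fin n → M.N), (∀ i, x i ∈ X) → ∀ y, φ.Realize (Sum.elim x (fun _ => y)) →
      ∃ y ∈ X, φ.Realize (Sum.elim x (fun _ => y))) : El (M.sub X) M (fun x => x.1) := by
  refine El_of_bdd fun n φ => ?_
  induction φ with
  | falsum => exact fun _ => Iff.rfl
  | equal t₁ t₂ =>
    intro xs
    simp only [BoundedFormula.Realize, realize_term_aux]
    exact Subtype.val_injective.eq_iff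
  | rel r ts =>
    intro xs
    simp only [BoundedFormula.Realize, realize_term_aux]
    cases r with
    | mem => exact Iff.rfl
    | lev => exact Iff.rfl
  | imp φ ψ ih₁ ih₂ =>
    intro xs
    simp only [BoundedFormula.realize_imp, ih₁, ih₂]
  | @all n φ ih =>
    intro xs
    simp only [BoundedFormula.realize_all]
    constructor
    · intro h a
      have := h a.1
      rw [← ih, Fin.comp_snoc]
      exact this
    · intro h
      by_contra hcon
      push Not at hcon
      obtain ⟨y, hy⟩ := hcon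
      let f : Empty ⊕ Fin (n + 1) → Fin n ⊕ Unit :=
        Sum.elim Empty.elim (Fin.snoc (fun i => Sum.inl i) (Sum.inr ()))
      have key : ∀ z : M.N, (φ.not.toFormula.relabel f).Realize
          (Sum.elim (fun i => (xs i).1) (fun _ => z)) ↔
          ¬ φ.Realize (default : Empty → M.N) (Fin.snoc ((fun x => x.1) ∘ xs) z) := by
        intro z
        rw [Formula.realize_relabel, BoundedFormula.realize_toFormula, BoundedFormula.realize_not]
        have h1 : (((Sum.elim (fun i => (xs i).1) (fun _ => z) : Fin n ⊕ Unit → M.N) ∘ f) ∘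
            Sum.inr) = (Fin.snoc ((fun x => x.1) ∘ xs) z : Fin (n + 1) → M.N) := by
          funext i
          refine Fin.lastCases ?_ (fun i => ?_) i
          · simp [f]
          · simp [f]
        rw [h1, Unique.eq_default ((((Sum.elim (fun i => (xs i).1) (fun _ => z) :
          Fin n ⊕ Unit → M.N) ∘ f) ∘ Sum.inl : Empty → M.N))]
      obtain ⟨z, hz, hz'⟩ := tv n _ (fun i => (xs i).1) (fun i => (xs i).2) y ((key y).2 hy)
      rw [key] at hz'
      apply hz'
      have h2 := h ⟨z, hz⟩
      rw [← ih, Fin.comp_snoc] at h2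
      exact h2

end Pool.MP_dc7230_lc
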