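import Mathlib
import Pool.Agent.Lib.MP_dc7230_lc.Str
import Pool.Agent.Lib.MP_dc7230_lc.LBasic

/-!
# MP_dc7230_lc: pseudo-constructible structures
-/

namespace Pool.MP_dc7230_lc

open Set

/-- satisfaction of pure formulas in the part `D` of a structure with membership `E` -/
def SatG {N : Type 1} (E : N → N → Prop) (D : N → Prop) : {n : ℕ} → Fml n → (Fin n → N) → Prop
  | _, .bot, _ => False
  | _, .eq i j, v => v i = v j
  | _, .mem i j, v => E (v i) (v j)
  | _, .imp φ ψ, v => SatG E D φ v → SatG E D ψ v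
  | _, .all φ, v => ∀ x, D x → SatG E D φ (Fin.cons x v)

/-- `x` is an ordinal of the structure -/
def Str.IsO (M : Str) (x : M.N) : Prop :=
  (∀ y, M.E y x → ∀ w, M.E w y → M.E w x) ∧
    (∀ y, M.E y x → ∀ w, M.E w y → ∀ u, M.E u w → M.E u y)

/-- `x` is the subset of the level `δ` defined by `φ` and `p` -/
def Str.IsDef (M : Str) {n : ℕ} (φ : Fml (n + 1)) (x δ : M.N) (p : Fin n → M.N) : Prop :=
  ∀ z, M.E z x ↔ M.R z δ ∧ SatG M.E (fun y => M.R y δ) φ (Fin.cons z p)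

/-- structures which look like levels of the constructible hierarchy -/
structure PL (M : Str) : Prop where
  wf : WellFounded M.E
  ext : ∀ x y, (∀ z, M.E z x ↔ M.E z y) → x = y
  lev : ∀ x δ, M.R x δ ↔ M.IsO δ ∧ ∃ (n : ℕ) (φ : Fml (n + 1)), ∃ δ', M.E δ' δ ∧
    ∃ p : Fin n → M.N, (∀ i, M.R (p i) δ') ∧ M.IsDef φ x δ' p
  ex : ∀ (n : ℕ) (φ : Fml (n + 1)) (δ : M.N) (p : Fin n → M.N), M.IsO δ → (∀ i, M.R (p i) δ) →
    ∃ x, M.IsDef φ x δ p
  cof : ∀ x, ∃ δ, M.IsO δ ∧ M.R x δ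

/-- the structure `(L_β; ∈, R)` where `R x δ` says that `δ` is an ordinal and `x ∈ L_δ` -/
def LM (β : Ordinal.{0}) : Str :=
  ⟨{x : ZFSet.{0} // x ∈ Lset β}, fun x y => x.1 ∈ y.1,
    fun x δ => δ.1.IsOrdinal ∧ x.1 ∈ Lset δ.1.rank⟩

/-- `x` is definable in `M` from parameters in `Z` -/
def dcl (M : Str) (Z : Set M.N) : Set M.N :=
  {x | ∃ (n : ℕ) (φ : LR.Formula (Fin n ⊕ Unit)) (z : Fin n → M.N), (∀ i, z i ∈ Z) ∧
    ∀ y, φ.Realize (Sum.elim z (fun _ => y)) ↔ y = x}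

/-! ### Uniform definability -/

lemma ud_isO {α : Type} (a : α) : UD α (fun M v => M.IsO (v a)) := by
  refine UD.and ?_ ?_
  · exact (UD.all (UD.imp (UD.mem none (some a)) (UD.all (UD.imp (UD.mem none (some none))
      (UD.mem none (some (some a))))))).congr fun _ _ => Iff.rfl
  · exact (UD.all (UD.imp (UD.mem none (some a)) (UD.all (UD.imp (UD.mem none (some none))
      (UD.all (UD.imp (UD.mem none (some none)) (UD.mem none (some (some none))))))))).congr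
        fun _ _ => Iff.rfl

lemma ud_satG {n : ℕ} (φ : Fml n) {α : Type} (d : α) (f : Fin n → α) :
    UD α (fun M v => SatG M.E (fun y => M.R y (v d)) φ (fun i => v (f i))) := by
  induction φ generalizing α with
  | bot => exact UD.false
  | eq i j => exact UD.eq (f i) (f j)
  | mem i j => exact UD.mem (f i) (f j)
  | imp φ ψ ih₁ ih₂ => exact UD.imp (ih₁ d f) (ih₂ d f)
  | @all n φ ih =>
    refine (UD.all (UD.imp (UD.lev none (some d)) (ih (some d)
      (Fin.cons none (fun i => some (f i)))))).congr fun M v => ?_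
    refine forall_congr' fun x => imp_congr Iff.rfl ?_
    have : (fun i => ((Fin.cons none (fun i => some (f i)) : Fin (n + 1) → Option α) i).elim x v) =
        (Fin.cons x (fun i => v (f i)) : Fin (n + 1) → M.N) := by
      funext i
      refine Fin.cases ?_ (fun i => ?_) i <;> rfl
    rw [this]
    exact Iff.rfl

lemma ud_isDef {n : ℕ} (φ : Fml (n + 1)) {α : Type} (x d : α) (f : Fin n → α) :
    UD α (fun M v => M.IsDef φ (v x) (v d) (fun i => v (f i))) := by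
  refine (UD.all (UD.iff (UD.mem none (some x)) (UD.and (UD.lev none (some d))
    (ud_satG φ (some d) (Fin.cons none (fun i => some (f i))))))).congr fun M v => ?_
  refine forall_congr' fun z => iff_congr Iff.rfl (and_congr Iff.rfl ?_)
  have : (fun i => ((Fin.cons none (fun i => some (f i)) : Fin (n + 1) → Option α) i).elim z v) =
      (Fin.cons z (fun i => v (f i)) : Fin (n + 1) → M.N) := by
    funext i
    refine Fin.cases ?_ (fun i => ?_) i <;> rfl
  rw [this]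
  exact Iff.rfl

lemma ud_lev {n : ℕ} (φ : Fml (n + 1)) {α : Type} (x d : α) :
    UD α (fun M v => ∃ δ', M.E δ' (v d) ∧ ∃ p : Fin n → M.N, (∀ i, M.R (p i) δ') ∧
      M.IsDef φ (v x) δ' p) := by
  refine (UD.ex (UD.and (UD.mem none (some d)) (UD.exs (UD.and
    (UD.forall_fin (fun i : Fin n => UD.lev (Sum.inr i) (Sum.inl none)))
    (ud_isDef φ (Sum.inl (some x)) (Sum.inl none) (fun i => Sum.inr i)))))).congr fun _ _ => Iff.rfl

lemma ud_ext {α : Type} (x y : α) :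
    UD α (fun M v => (∀ z, M.E z (v x) ↔ M.E z (v y)) → v x = v y) :=
  UD.imp ((UD.all (UD.iff (UD.mem none (some x)) (UD.mem none (some y)))).congr
    fun _ _ => Iff.rfl) (UD.eq x y)

lemma ud_exd {n : ℕ} (φ : Fml (n + 1)) {α : Type} (d : α) (f : Fin n → α) :
    UD α (fun M v => M.IsO (v d) → (∀ i, M.R (v (f i)) (v d)) →
      ∃ x, M.IsDef φ x (v d) (fun i => v (f i))) :=
  UD.imp (ud_isO d) (UD.imp (UD.forall_fin (fun i => UD.lev (f i) d))
    ((UD.ex (ud_isDef φ none (some d) (fun i => some (f i)))).congr fun _ _ => Iff.rfl))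

lemma ud_cof {α : Type} (x : α) : UD α (fun M v => ∃ δ, M.IsO δ ∧ M.R (v x) δ) :=
  (UD.ex (UD.and (ud_isO none) (UD.lev (some x) none))).congr fun _ _ => Iff.rfl

/-- the first-order axioms -/
structure PLa (M : Str) : Prop where
  ext : ∀ x y, (∀ z, M.E z x ↔ M.E z y) → x = y
  lev : ∀ x δ, M.R x δ ↔ M.IsO δ ∧ ∃ (n : ℕ) (φ : Fml (n + 1)), ∃ δ', M.E δ' δ ∧
    ∃ p : Fin n → M.N, (∀ i, M.R (p i) δ') ∧ M.IsDef φ x δ' p
  ex : ∀ (n : ℕ) (φ : Fml (n + 1)) (δ : M.N) (p : Fin n → M.N), M.IsO δ → (∀ i, M.R (p i) δ) →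
    ∃ x, M.IsDef φ x δ p
  cof : ∀ x, ∃ δ, M.IsO δ ∧ M.R x δ

lemma PL.a {M : Str} (h : PL M) : PLa M := ⟨h.ext, h.lev, h.ex, h.cof⟩

lemma El.isO {M M' : Str} {j : M.N → M'.N} (h : El M M' j) {x : M.N} :
    M'.IsO (j x) ↔ M.IsO x := h.ud (ud_isO ()) (fun _ => x)

lemma El.levIff {M M' : Str} {j : M.N → M'.N} (h : El M M' j) {n : ℕ} (φ : Fml (n + 1))
    (x δ : M.N) : (∃ δ', M'.E δ' (j δ) ∧ ∃ p : Fin n → M'.N, (∀ i, M'.R (p i) δ') ∧
      M'.IsDef φ (j x) δ' p) ↔ (∃ δ', M.E δ' δ ∧ ∃ p : Fin n → M.N, (∀ i, M.R (p i) δ') ∧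
      M.IsDef φ x δ' p) :=
  h.ud (ud_lev φ (0 : Fin 2) 1) ![x, δ]

/-- elementary submodels -/
lemma PLa.of_el {M M' : Str} {j : M.N → M'.N} (h : El M M' j) (hM : PLa M') : PLa M where
  ext x y := (h.ud (ud_ext (0 : Fin 2) 1) ![x, y]).1 (hM.ext _ _)
  lev x δ := by
    rw [← h.R, hM.lev, h.isO]
    exact and_congr Iff.rfl (exists_congr fun n => exists_congr fun φ => h.levIff φ x δ)
  ex n φ δ p := (h.ud (ud_exd φ (none : Option (Fin n)) some) (fun o => o.elim δ p)).1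
    (hM.ex n φ _ _)
  cof x := (h.ud (ud_cof ()) (fun _ => x)).1 (hM.cof _)

lemma PL.of_el {M M' : Str} {j : M.N → M'.N} (h : El M M' j) (hM : PL M') : PL M := by
  have ha := PLa.of_el h hM.a
  refine ⟨?_, ha.ext, ha.lev, ha.ex, ha.cof⟩
  refine Subrelation.wf (r := InvImage M'.E j) (fun {x y} hxy => ?_) (InvImage.wf j hM.wf)
  exact h.E.2 hxy

/-- directed unions -/
lemma PLa.of_cover {M : Str} (hcov : ∀ (n : ℕ) (v : Fin n → M.N), ∃ (M' : Str) (j : M'.N → M.N),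
    PLa M' ∧ El M' M j ∧ ∀ i, ∃ x, j x = v i) : PLa M where
  ext x y := by
    obtain ⟨M', j, hM', hj, hv⟩ := hcov 2 ![x, y]
    obtain ⟨x', hx'⟩ := hv 0
    obtain ⟨y', hy'⟩ := hv 1
    have hx'' : j x' = x := hx'
    have hy'' : j y' = y := hy'
    subst hx'' hy''
    exact (hj.ud (ud_ext (0 : Fin 2) 1) ![x', y']).2 (hM'.ext _ _)
  lev x δ := by
    obtain ⟨M', j, hM', hj, hv⟩ := hcov 2 ![x, δ]
    obtain ⟨x', hx'⟩ := hv 0
    obtain ⟨y', hy'⟩ := hv 1
    have hx'' : j x' = x := hx'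
    have hy'' : j y' = δ := hy'
    subst hx'' hy''
    rw [hj.R, hM'.lev, hj.isO]
    exact and_congr Iff.rfl (exists_congr fun n => exists_congr fun φ => (hj.levIff φ _ _).symm)
  ex n φ δ p := by
    obtain ⟨M', j, hM', hj, hv⟩ := hcov (n + 1) (Fin.cons δ p)
    choose w hw using hv
    have h1 : j (w 0) = δ := hw 0
    have h2 : (fun i : Fin n => j (w i.succ)) = p := funext fun i => hw i.succ
    subst h1 h2
    exact (hj.ud (ud_exd φ (none : Option (Fin n)) some) (fun o => o.elim (w 0)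
      (fun i => w i.succ))).2 (hM'.ex n φ _ _)
  cof x := by
    obtain ⟨M', j, hM', hj, hv⟩ := hcov 1 ![x]
    obtain ⟨x', hx'⟩ := hv 0
    have hx'' : j x' = x := hx'
    subst hx''
    exact (hj.ud (ud_cof ()) (fun _ => x')).2 (hM'.cof _)

end Pool.MP_dc7230_lc
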