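import Mathlib
import Pool.Agent.Lib.MP_dc7230_lc.PL

/-!
# MP_dc7230_lc: the collapse of a pseudo-constructible structure
-/

namespace Pool.MP_dc7230_lc

open Set

/-! ### `LM β` -/

lemma LM_isO {β : Ordinal.{0}} {x : (LM β).N} : (LM β).IsO x ↔ x.1.IsOrdinal := by
  rw [isOrdinal_iff]
  constructor
  · rintro ⟨h1, h2⟩
    refine ⟨fun y hy w hw => ?_, fun y hy w hw u hu => ?_⟩
    · have hy' := Lset_trans x.2 hy
      exact h1 ⟨y, hy'⟩ hy ⟨w, Lset_trans hy' hw⟩ hw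
    · have hy' := Lset_trans x.2 hy
      have hw' := Lset_trans hy' hw
      exact h2 ⟨y, hy'⟩ hy ⟨w, hw'⟩ hw ⟨u, Lset_trans hw' hu⟩ hu
  · rintro ⟨h1, h2⟩
    exact ⟨fun y hy w hw => h1 y.1 hy w.1 hw, fun y hy w hw u hu => h2 y.1 hy w.1 hw u.1 hu⟩

lemma LM_satG {β ζ : Ordinal.{0}} (hζ : ζ ≤ β) {n : ℕ} (φ : Fml n) (v : Fin n → (LM β).N) :
    SatG (LM β).E (fun y => y.1 ∈ Lset ζ) φ v ↔ Sat (Lset ζ) φ (fun i => (v i).1) := by
  induction φ with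
  | bot => exact Iff.rfl
  | eq i j => exact Subtype.ext_iff
  | mem i j => exact Iff.rfl
  | imp φ ψ ih₁ ih₂ => exact imp_congr (ih₁ v) (ih₂ v)
  | @all n φ ih =>
    have key : ∀ x : (LM β).N, (fun i => ((Fin.cons x v : Fin (n + 1) → (LM β).N) i).1) =
        (Fin.cons x.1 (fun i => (v i).1) : Fin (n + 1) → ZFSet.{0}) := by
      intro x
      funext i
      refine Fin.cases ?_ (fun i => ?_) i <;> rfl
    constructor
    · intro h x hx
      have := (ih _).1 (h ⟨x, Lset_mono hζ hx⟩ hx)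
      rwa [key] at this
    · intro h x hx
      rw [ih, key]
      exact h x.1 hx

lemma LM_R {β : Ordinal.{0}} {x δ : (LM β).N} (ζ : Ordinal.{0}) (hδ : δ.1 = ζ.toZFSet) :
    (LM β).R x δ ↔ x.1 ∈ Lset ζ := by
  show (δ.1.IsOrdinal ∧ x.1 ∈ Lset δ.1.rank) ↔ _
  rw [hδ, Ordinal.rank_toZFSet]
  exact ⟨fun h => h.2, fun h => ⟨ZFSet.isOrdinal_toZFSet _, h⟩⟩

lemma LM_ord {β : Ordinal.{0}} {δ : (LM β).N} (h : δ.1.IsOrdinal) :
    ∃ ζ < β, δ.1 = ζ.toZFSet := by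
  obtain ⟨ζ, hζ⟩ := ZFSet.isOrdinal_iff_mem_range_toZFSet.1 h
  refine ⟨ζ, ord_mem_Lset.1 ?_, hζ.symm⟩
  rw [hζ]
  exact δ.2

/-- the ordinal `ζ < β` as an element of `LM β` -/
noncomputable def LM.o {β : Ordinal.{0}} (ζ : Ordinal.{0}) (h : ζ < β) : (LM β).N :=
  ⟨ζ.toZFSet, ord_mem_Lset.2 h⟩

lemma LM_isDef {β ζ : Ordinal.{0}} (hζ : ζ < β) {n : ℕ} (φ : Fml (n + 1)) (x : (LM β).N)
    (p : Fin n → (LM β).N) : (LM β).IsDef φ x (LM.o ζ hζ) p ↔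
      (x.1 ⊆ Lset ζ ∧ ∀ z ∈ Lset ζ, z ∈ x.1 ↔ Sat (Lset ζ) φ (Fin.cons z (fun i => (p i).1))) := by
  have hR : ∀ y : (LM β).N, (LM β).R y (LM.o ζ hζ) ↔ y.1 ∈ Lset ζ := fun y => LM_R ζ rfl
  have hD : (fun y => (LM β).R y (LM.o ζ hζ)) = (fun y : (LM β).N => y.1 ∈ Lset ζ) := by
    funext y
    exact propext (hR y)
  have key : ∀ z : (LM β).N, (fun i => ((Fin.cons z p : Fin (n + 1) → (LM β).N) i).1) =
      (Fin.cons z.1 (fun i => (p i).1) : Fin (n + 1) → ZFSet.{0}) := by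
    intro z
    funext i
    refine Fin.cases ?_ (fun i => ?_) i <;> rfl
  have h1 : (LM β).IsDef φ x (LM.o ζ hζ) p ↔ ∀ z : (LM β).N, z.1 ∈ x.1 ↔ z.1 ∈ Lset ζ ∧
      Sat (Lset ζ) φ (Fin.cons z.1 (fun i => (p i).1)) := by
    refine forall_congr' fun z => iff_congr Iff.rfl ?_
    show (LM β).R z (LM.o ζ hζ) ∧ SatG (LM β).E (fun y => (LM β).R y (LM.o ζ hζ)) φ _ ↔ _
    rw [hR, hD, LM_satG hζ.le, key]
  rw [h1]
  constructor
  · intro h
    refine ⟨fun z hz => ((h ⟨z, Lset_trans x.2 hz⟩).1 hz).1, fun z hz => ?_⟩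
    rw [h ⟨z, Lset_mono hζ.le hz⟩]
    exact ⟨fun h => h.2, fun h => ⟨hz, h⟩⟩
  · rintro ⟨h1, h2⟩ z
    constructor
    · intro hz
      exact ⟨h1 hz, (h2 _ (h1 hz)).1 hz⟩
    · rintro ⟨hz, hs⟩
      exact (h2 _ hz).2 hs

theorem PL_LM {β : Ordinal.{0}} (hβ : Order.IsSuccLimit β) : PL (LM β) where
  wf := by
    refine Subrelation.wf (r := InvImage (fun x y : ZFSet.{0} => x ∈ y)
      (fun x : (LM β).N => x.1)) (fun {x y} hxy => hxy) (InvImage.wf _ ZFSet.mem_wf)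
  ext x y h := by
    apply Subtype.ext
    ext z
    constructor
    · intro hz
      exact (h ⟨z, Lset_trans x.2 hz⟩).1 hz
    · intro hz
      exact (h ⟨z, Lset_trans y.2 hz⟩).2 hz
  lev x δ := by
    rw [LM_isO]
    constructor
    · intro h
      obtain ⟨hδ, hx⟩ := h
      obtain ⟨ζ, hζ, hδζ⟩ := LM_ord hδ
      rw [hδζ, Ordinal.rank_toZFSet] at hx
      obtain ⟨ε, hε, hxε⟩ := mem_Lset.1 hx
      obtain ⟨h1, n, φ, p, hp, hφ⟩ := mem_DefSet.1 hxε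
      have hεβ := hε.trans hζ
      refine ⟨hδ, n, φ, LM.o ε hεβ, ?_, fun i => ⟨p i, Lset_mono hεβ.le (hp i)⟩,
        fun i => (LM_R ε rfl).2 (hp i), (LM_isDef hεβ φ _ _).2 ⟨h1, hφ⟩⟩
      show ε.toZFSet ∈ δ.1
      rw [hδζ]
      exact Ordinal.toZFSet_mem_toZFSet_iff.2 hε
    · rintro ⟨hδ, n, φ, δ', hδ', p, hp, hφ⟩
      obtain ⟨ζ, hζ, hδζ⟩ := LM_ord hδ
      have h1 : δ'.1 ∈ ζ.toZFSet := by rw [← hδζ]; exact hδ'
      obtain ⟨ε, hε, hε'⟩ := Ordinal.mem_toZFSet_iff.1 h1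
      have hεβ := hε.trans hζ
      have h2 : δ' = LM.o ε hεβ := Subtype.ext hε'.symm
      subst h2
      rw [LM_isDef hεβ] at hφ
      rw [LM_R ζ hδζ]
      exact mem_Lset.2 ⟨ε, hε, mem_DefSet.2 ⟨hφ.1, n, φ, fun i => (p i).1,
        fun i => (LM_R ε rfl).1 (hp i), hφ.2⟩⟩
  ex n φ δ p hδ hp := by
    obtain ⟨ζ, hζ, hδζ⟩ := LM_ord (LM_isO.1 hδ)
    have h2 : δ = LM.o ζ hζ := Subtype.ext hδζ
    subst h2
    let y : ZFSet.{0} := ZFSet.sep (fun z => Sat (Lset ζ) φ (Fin.cons z (fun i => (p i).1)))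
      (Lset ζ)
    have hy : y ∈ DefSet (Lset ζ) := mem_DefSet.2 ⟨fun z hz => (ZFSet.mem_sep.1 hz).1, n, φ,
      fun i => (p i).1, fun i => (LM_R ζ rfl).1 (hp i), fun z hz => by
        rw [ZFSet.mem_sep]
        exact ⟨fun h => h.2, fun h => ⟨hz, h⟩⟩⟩
    have hy' : y ∈ Lset β := Lset_mono (by
      rw [← Order.succ_eq_add_one]
      exact Order.succ_le_of_lt hζ) (mem_Lset_succ hy)
    refine ⟨⟨y, hy'⟩, (LM_isDef hζ φ _ _).2
      ⟨fun z (hz : z ∈ y) => (ZFSet.mem_sep.1 hz).1, fun z hz => ?_⟩⟩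
    show z ∈ y ↔ _
    rw [ZFSet.mem_sep]
    exact ⟨fun h => h.2, fun h => ⟨hz, h⟩⟩
  cof x := by
    obtain ⟨ζ, hζ, hx⟩ := mem_Lset.1 x.2
    have hζ' : ζ + 1 < β := by
      rw [← Order.succ_eq_add_one]
      exact hβ.succ_lt hζ
    exact ⟨LM.o (ζ + 1) hζ', LM_isO.2 (ZFSet.isOrdinal_toZFSet _),
      (LM_R (ζ + 1) rfl).2 (mem_Lset_succ hx)⟩

/-! ### The collapse -/

/-- `f` is a transitive collapse of `M` -/
def IsCol (M : Str) (f : M.N → ZFSet.{0}) : Prop := ∀ x z, z ∈ f x ↔ ∃ y, M.E y x ∧ f y = z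

lemma exists_col (M : Str) [Small.{0} M.N] (wf : WellFounded M.E) :
    ∃ f : M.N → ZFSet.{0}, IsCol M f := by
  let F : ∀ x : M.N, (∀ y : M.N, M.E y x → ZFSet.{0}) → ZFSet.{0} := fun x ih =>
    ZFSet.range (fun y : {y : M.N // M.E y x} => ih y.1 y.2)
  refine ⟨wf.fix F, fun x z => ?_⟩
  rw [wf.fix_eq]
  show z ∈ ZFSet.range _ ↔ _
  rw [ZFSet.mem_range]
  constructor
  · rintro ⟨⟨y, hy⟩, h⟩
    exact ⟨y, hy, h⟩
  · rintro ⟨y, hy, h⟩
    exact ⟨⟨y, hy⟩, h⟩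

lemma IsCol.unique {M : Str} (wf : WellFounded M.E) {f g : M.N → ZFSet.{0}} (hf : IsCol M f)
    (hg : IsCol M g) : f = g := by
  funext x
  induction x using wf.induction with
  | _ x ih =>
    ext z
    rw [hf, hg]
    refine exists_congr fun y => and_congr_right fun hy => ?_
    rw [ih y hy]

lemma IsCol.inj {M : Str} (wf : WellFounded M.E)
    (ext : ∀ x y, (∀ z, M.E z x ↔ M.E z y) → x = y) {f : M.N → ZFSet.{0}} (hf : IsCol M f) :
    Function.Injective f := by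
  intro x
  induction x using wf.induction with
  | _ x ih =>
    intro y hxy
    refine ext x y fun z => ⟨fun hz => ?_, fun hz => ?_⟩
    · have : f z ∈ f y := by rw [← hxy]; exact (hf _ _).2 ⟨z, hz, rfl⟩
      obtain ⟨w, hw, hwz⟩ := (hf _ _).1 this
      rwa [ih z hz hwz.symm]
    · have : f z ∈ f x := by rw [hxy]; exact (hf _ _).2 ⟨z, hz, rfl⟩
      obtain ⟨w, hw, hwz⟩ := (hf _ _).1 this
      rwa [← ih w hw hwz]

section
variable {M : Str} (hM : PL M) {f : M.N → ZFSet.{0}} (hf : IsCol M f)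
include hM hf

lemma IsCol.E {x y : M.N} : f x ∈ f y ↔ M.E x y := by
  rw [hf]
  constructor
  · rintro ⟨z, hz, h⟩
    rwa [← hf.inj hM.wf hM.ext h]
  · exact fun h => ⟨x, h, rfl⟩

lemma IsCol.isO {x : M.N} : (f x).IsOrdinal ↔ M.IsO x := by
  rw [isOrdinal_iff]
  constructor
  · rintro ⟨h1, h2⟩
    refine ⟨fun y hy w hw => ?_, fun y hy w hw u hu => ?_⟩
    · rw [← hf.E hM] at hy hw ⊢
      exact h1 _ hy _ hw
    · rw [← hf.E hM] at hy hw hu ⊢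
      exact h2 _ hy _ hw _ hu
  · rintro ⟨h1, h2⟩
    refine ⟨fun y hy w hw => ?_, fun y hy w hw u hu => ?_⟩
    · obtain ⟨y', hy', rfl⟩ := (hf _ _).1 hy
      obtain ⟨w', hw', rfl⟩ := (hf _ _).1 hw
      rw [hf.E hM]
      exact h1 _ hy' _ hw'
    · obtain ⟨y', hy', rfl⟩ := (hf _ _).1 hy
      obtain ⟨w', hw', rfl⟩ := (hf _ _).1 hw
      obtain ⟨u', hu', rfl⟩ := (hf _ _).1 hu
      rw [hf.E hM]
      exact h2 _ hy' _ hw' _ hu'

lemma IsCol.sat {δ : M.N} {ζ : Ordinal.{0}} (h : ∀ z, z ∈ Lset ζ ↔ ∃ x, M.R x δ ∧ f x = z)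
    {n : ℕ} (φ : Fml n) (v : Fin n → M.N) :
    SatG M.E (fun y => M.R y δ) φ v ↔ Sat (Lset ζ) φ (fun i => f (v i)) := by
  induction φ with
  | bot => exact Iff.rfl
  | eq i j => exact (hf.inj hM.wf hM.ext).eq_iff.symm
  | mem i j => exact (hf.E hM).symm
  | imp φ ψ ih₁ ih₂ => exact imp_congr (ih₁ v) (ih₂ v)
  | @all n φ ih =>
    have key : ∀ x : M.N, (fun i => f ((Fin.cons x v : Fin (n + 1) → M.N) i)) =
        (Fin.cons (f x) (fun i => f (v i)) : Fin (n + 1) → ZFSet.{0}) := by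
      intro x
      funext i
      refine Fin.cases ?_ (fun i => ?_) i <;> rfl
    constructor
    · intro h' x hx
      obtain ⟨x', hx', rfl⟩ := (h _).1 hx
      have := (ih _).1 (h' x' hx')
      rwa [key] at this
    · intro h' x hx
      rw [ih, key]
      exact h' (f x) ((h _).2 ⟨x, hx, rfl⟩)

lemma IsCol.isDef {δ : M.N} {ζ : Ordinal.{0}} (h : ∀ z, z ∈ Lset ζ ↔ ∃ x, M.R x δ ∧ f x = z)
    {n : ℕ} (φ : Fml (n + 1)) (x : M.N) (p : Fin n → M.N) :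
    M.IsDef φ x δ p ↔ (f x ⊆ Lset ζ ∧
      ∀ z ∈ Lset ζ, z ∈ f x ↔ Sat (Lset ζ) φ (Fin.cons z (fun i => f (p i)))) := by
  have key : ∀ z : M.N, (fun i => f ((Fin.cons z p : Fin (n + 1) → M.N) i)) =
      (Fin.cons (f z) (fun i => f (p i)) : Fin (n + 1) → ZFSet.{0}) := by
    intro z
    funext i
    refine Fin.cases ?_ (fun i => ?_) i <;> rfl
  have hR : ∀ z : M.N, M.R z δ ↔ f z ∈ Lset ζ := by
    intro z
    rw [h]
    constructor
    · exact fun h => ⟨z, h, rfl⟩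
    · rintro ⟨y, hy, hyz⟩
      rwa [← hf.inj hM.wf hM.ext hyz]
  have h1 : M.IsDef φ x δ p ↔ ∀ z : M.N, f z ∈ f x ↔ f z ∈ Lset ζ ∧
      Sat (Lset ζ) φ (Fin.cons (f z) (fun i => f (p i))) := by
    refine forall_congr' fun z => ?_
    rw [hf.E hM, hf.sat hM h, key, hR]
  rw [h1]
  constructor
  · intro h'
    refine ⟨fun z hz => ?_, fun z hz => ?_⟩
    · obtain ⟨y, hy, rfl⟩ := (hf _ _).1 hz
      exact ((h' y).1 hz).1
    · obtain ⟨y, hy, rfl⟩ := (h _).1 hz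
      rw [h' y]
      exact ⟨fun h => h.2, fun h => ⟨hz, h⟩⟩
  · rintro ⟨h1, h2⟩ z
    constructor
    · intro hz
      exact ⟨h1 hz, (h2 _ (h1 hz)).1 hz⟩
    · rintro ⟨hz, hs⟩
      exact (h2 _ hz).2 hs

lemma IsCol.level {δ : M.N} {ζ : Ordinal.{0}} (hδ : f δ = ζ.toZFSet) :
    ∀ z, z ∈ Lset ζ ↔ ∃ x, M.R x δ ∧ f x = z := by
  induction ζ using WellFoundedLT.induction generalizing δ with
  | _ ζ ih =>
    intro z
    have hO : M.IsO δ := by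
      rw [← hf.isO hM, hδ]
      exact ZFSet.isOrdinal_toZFSet _
    constructor
    · intro hz
      obtain ⟨ε, hε, hzε⟩ := mem_Lset.1 hz
      obtain ⟨h1, n, φ, p, hp, hφ⟩ := mem_DefSet.1 hzε
      have h2 : ε.toZFSet ∈ f δ := by
        rw [hδ]
        exact Ordinal.toZFSet_mem_toZFSet_iff.2 hε
      obtain ⟨δ', hδ', hε'⟩ := (hf _ _).1 h2
      have h3 := ih ε hε hε'
      have hO' : M.IsO δ' := by
        rw [← hf.isO hM, hε']
        exact ZFSet.isOrdinal_toZFSet _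
      have h4 : ∀ i, ∃ x, M.R x δ' ∧ f x = p i := fun i => (h3 _).1 (hp i)
      choose p' hp' hpp using h4
      obtain ⟨x, hx⟩ := hM.ex n φ δ' p' hO' hp'
      refine ⟨x, (hM.lev _ _).2 ⟨hO, n, φ, δ', hδ', p', hp', hx⟩, ?_⟩
      rw [hf.isDef hM h3] at hx
      obtain ⟨hx1, hx2⟩ := hx
      ext w
      constructor
      · intro hw
        rw [hφ w (hx1 hw)]
        have := (hx2 w (hx1 hw)).1 hw
        simpa only [hpp] using this
      · intro hw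
        rw [hx2 w (h1 hw)]
        have := (hφ w (h1 hw)).1 hw
        simpa only [hpp] using this
    · rintro ⟨x, hx, rfl⟩
      obtain ⟨-, n, φ, δ', hδ', p, hp, hφ⟩ := (hM.lev _ _).1 hx
      have h2 : f δ' ∈ ζ.toZFSet := by
        rw [← hδ]
        exact (hf.E hM).2 hδ'
      obtain ⟨ε, hε, hε'⟩ := Ordinal.mem_toZFSet_iff.1 h2
      have h3 := ih ε hε hε'.symm
      rw [hf.isDef hM h3] at hφ
      exact mem_Lset.2 ⟨ε, hε, mem_DefSet.2 ⟨hφ.1, n, φ, fun i => f (p i),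
        fun i => (h3 _).2 ⟨_, hp i, rfl⟩, hφ.2⟩⟩

lemma IsCol.R {x δ : M.N} (hδ : M.IsO δ) : M.R x δ ↔ f x ∈ Lset (f δ).rank := by
  have h1 := (hf.isO hM).2 hδ
  obtain ⟨ζ, hζ⟩ := ZFSet.isOrdinal_iff_mem_range_toZFSet.1 h1
  rw [← hζ, Ordinal.rank_toZFSet, hf.level hM hζ.symm]
  constructor
  · exact fun h => ⟨x, h, rfl⟩
  · rintro ⟨y, hy, hyz⟩
    rwa [← hf.inj hM.wf hM.ext hyz]

end

theorem exists_collapse {M : Str} [Small.{0} M.N] [Nonempty M.N] (hM : PL M) :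
    ∃ β : Ordinal.{0}, Order.IsSuccLimit β ∧ ∃ e : M.N ≃ (LM β).N,
      (∀ x y, (LM β).E (e x) (e y) ↔ M.E x y) ∧ (∀ x y, (LM β).R (e x) (e y) ↔ M.R x y) := by
  obtain ⟨f, hf⟩ := exists_col M hM.wf
  have hfi := hf.inj hM.wf hM.ext
  have hne : {ζ : Ordinal.{0} | ¬ ∃ δ, f δ = ζ.toZFSet}.Nonempty := by
    by_contra hcon
    rw [Set.not_nonempty_iff_eq_empty, Set.eq_empty_iff_forall_notMem] at hcon
    have h1 : ∀ ζ : Ordinal.{0}, ∃ δ, f δ = ζ.toZFSet := fun ζ => not_not.1 (hcon ζ)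
    choose g hg using h1
    have h2 : Function.Injective g := by
      intro a b hab
      have := hg a
      rw [hab, hg b] at this
      exact (Ordinal.toZFSet_injective this).symm
    have : Small.{0} Ordinal.{0} := small_of_injective h2
    exact not_small_ordinal this
  let β := sInf {ζ : Ordinal.{0} | ¬ ∃ δ, f δ = ζ.toZFSet}
  have hβ1 : ¬ ∃ δ, f δ = β.toZFSet := csInf_mem hne
  have hβ2 : ∀ ζ < β, ∃ δ, f δ = ζ.toZFSet := fun ζ hζ => not_not.1 (notMem_of_lt_csInf' hζ)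
  have hβ3 : ∀ ζ δ, f δ = ζ.toZFSet → ζ < β := by
    intro ζ δ hδ
    by_contra hcon
    push Not at hcon
    rcases hcon.eq_or_lt with h | h
    · exact hβ1 ⟨δ, by rw [hδ, h]⟩
    · have h2 : β.toZFSet ∈ f δ := by
        rw [hδ]
        exact Ordinal.toZFSet_mem_toZFSet_iff.2 h
      obtain ⟨δ', -, hε'⟩ := (hf _ _).1 h2
      exact hβ1 ⟨δ', hε'⟩
  have hcof : ∀ x, ∃ ζ < β, ∃ δ, f δ = ζ.toZFSet ∧ M.R x δ := by
    intro x
    obtain ⟨δ, hδ, hx⟩ := hM.cof x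
    have h1 := (hf.isO hM).2 hδ
    obtain ⟨ζ, hζ⟩ := ZFSet.isOrdinal_iff_mem_range_toZFSet.1 h1
    exact ⟨ζ, hβ3 ζ δ hζ.symm, δ, hζ.symm, hx⟩
  have hmem : ∀ x, f x ∈ Lset β := by
    intro x
    obtain ⟨ζ, hζ, δ, hδ, hx⟩ := hcof x
    exact Lset_mono hζ.le ((hf.level hM hδ _).2 ⟨x, hx, rfl⟩)
  have hlim : Order.IsSuccLimit β := by
    refine ⟨?_, Order.isSuccPrelimit_of_succ_lt ?_⟩
    · rw [isMin_iff_eq_bot]
      intro h0
      obtain ⟨x⟩ := ‹Nonempty M.N›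
      obtain ⟨ζ, hζ, -⟩ := hcof x
      rw [h0] at hζ
      exact not_lt_bot hζ
    · intro ζ hζ
      obtain ⟨δ, hδ⟩ := hβ2 ζ hζ
      obtain ⟨ζ', hζ', δ', hδ', hx⟩ := hcof δ
      have := (hf.level hM hδ' _).2 ⟨δ, hx, rfl⟩
      rw [hδ, ord_mem_Lset] at this
      exact (Order.succ_le_of_lt this).trans_lt hζ'
  refine ⟨β, hlim, Equiv.ofBijective (fun x => (⟨f x, hmem x⟩ : (LM β).N))
    ⟨fun x y hxy => hfi (congrArg Subtype.val hxy), fun z => ?_⟩, fun x y => hf.E hM,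
    fun x y => ?_⟩
  · obtain ⟨ζ, hζ, hz⟩ := mem_Lset.1 z.2
    have hζ' : ζ + 1 < β := by
      rw [← Order.succ_eq_add_one]
      exact hlim.succ_lt hζ
    obtain ⟨δ, hδ⟩ := hβ2 _ hζ'
    obtain ⟨x, -, hx⟩ := (hf.level hM hδ _).1 (mem_Lset_succ hz)
    exact ⟨x, Subtype.ext hx⟩
  · show ((f y).IsOrdinal ∧ f x ∈ Lset (f y).rank) ↔ _
    constructor
    · rintro ⟨h1, h2⟩
      exact (hf.R hM ((hf.isO hM).1 h1)).2 h2
    · intro h
      have hO := ((hM.lev _ _).1 h).1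
      exact ⟨(hf.isO hM).2 hO, (hf.R hM hO).1 h⟩

/-- isomorphisms are elementary -/
lemma El_of_equiv {M M' : Str} (e : M.N ≃ M'.N) (hE : ∀ x y, M'.E (e x) (e y) ↔ M.E x y)
    (hR : ∀ x y, M'.R (e x) (e y) ↔ M.R x y) : El M M' e :=
  El_of (I := PUnit.{1}) (M := fun _ => M) (fun _ => e) (fun _ _ => True) (fun _ _ x => x)
    (fun _ _ _ _ => rfl) (fun _ _ _ => El.id) (fun _ y => ⟨⟨⟩, trivial, e.symm y, by simp⟩)
    (fun _ => hE) (fun _ => hR) (fun _ => e.injective) ⟨⟩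

lemma IsCol_LM (β : Ordinal.{0}) : IsCol (LM β) (fun x => x.1) := by
  intro x z
  constructor
  · intro hz
    exact ⟨⟨z, Lset_trans x.2 hz⟩, hz, rfl⟩
  · rintro ⟨y, hy, rfl⟩
    exact hy

/-- rigidity -/
lemma LM_rigid {β β' : Ordinal.{0}} (e : (LM β).N ≃ (LM β').N)
    (hE : ∀ x y, (LM β').E (e x) (e y) ↔ (LM β).E x y) :
    β = β' ∧ ∀ x, (e x).1 = x.1 := by
  have h1 : IsCol (LM β) (fun x => (e x).1) := by
    intro x z
    constructor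
    · intro hz
      have := hE (e.symm ⟨z, Lset_trans (e x).2 hz⟩) x
      rw [Equiv.apply_symm_apply] at this
      exact ⟨_, this.1 hz, congrArg Subtype.val (e.apply_symm_apply _)⟩
    · rintro ⟨y, hy, rfl⟩
      exact (hE y x).2 hy
  have wf : WellFounded (LM β).E := by
    refine Subrelation.wf (r := InvImage (fun x y : ZFSet.{0} => x ∈ y)
      (fun x : (LM β).N => x.1)) (fun {x y} hxy => hxy) (InvImage.wf _ ZFSet.mem_wf)
  have h2 := h1.unique wf (IsCol_LM β)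
  have h3 : ∀ x, (e x).1 = x.1 := fun x => congrFun h2 x
  refine ⟨le_antisymm ?_ ?_, h3⟩
  · by_contra hcon
    push Not at hcon
    have := (e (LM.o β' hcon)).2
    rw [h3] at this
    exact lt_irrefl _ (ord_mem_Lset.1 this)
  · by_contra hcon
    push Not at hcon
    have := (e.symm (LM.o β hcon)).2
    rw [← h3, Equiv.apply_symm_apply] at this
    exact lt_irrefl _ (ord_mem_Lset.1 this)

end Pool.MP_dc7230_lc
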