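import Mathlib
import Pool.Agent.Lib.MP_dc7230_lc.Defs

/-!
# MP_dc7230_lc: interface of the filtration of an ordinal below `ω₃`
-/

namespace Pool.MP_dc7230_lc

open Set

/-- A continuous filtration of the ordinal `μ` of length `ω₂`, in collapsed form: `m γ` is the
order type of the `γ`-th set `Θ_γ ⊆ μ`, `n γ` is the order type of `Θ_γ ∩ ν`, and
`e δ γ : m δ → m γ` is the order embedding induced by the inclusion of `Θ_δ` in `Θ_γ`. -/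
structure Filt (μ ν : Ordinal.{0}) where
  m : Ordinal.{0} → Ordinal.{0}
  n : Ordinal.{0} → Ordinal.{0}
  e : Ordinal.{0} → Ordinal.{0} → Ordinal.{0} → Ordinal.{0}
  m_top : m (Ordinal.omega 2) = μ
  n_top : n (Ordinal.omega 2) = ν
  m_lt : ∀ γ < Ordinal.omega 2, m γ < Ordinal.omega 2
  n_lt : ∀ γ ≤ Ordinal.omega 2, n γ < m γ
  n_ge : ∀ γ ≤ Ordinal.omega 2, γ ≤ n γ
  e_lt : ∀ δ γ ξ, δ ≤ γ → γ ≤ Ordinal.omega 2 → ξ < m δ → e δ γ ξ < m γ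
  e_mono : ∀ δ γ ξ ξ', δ ≤ γ → γ ≤ Ordinal.omega 2 → ξ < ξ' → ξ' < m δ → e δ γ ξ < e δ γ ξ'
  e_refl : ∀ γ ξ, γ ≤ Ordinal.omega 2 → ξ < m γ → e γ γ ξ = ξ
  e_comp : ∀ δ γ γ' ξ, δ ≤ γ → γ ≤ γ' → γ' ≤ Ordinal.omega 2 → ξ < m δ →
    e γ γ' (e δ γ ξ) = e δ γ' ξ
  e_n : ∀ δ γ, δ ≤ γ → γ ≤ Ordinal.omega 2 → e δ γ (n δ) = n γ
  e_cov : ∀ γ, 0 < γ → (∀ δ < γ, ∃ ε < γ, δ < ε) → γ ≤ Ordinal.omega 2 → ∀ ζ < m γ,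
    ∃ δ < γ, ∃ ξ < m δ, e δ γ ξ = ζ

end Pool.MP_dc7230_lc
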