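import Mathlib
import Pool.Agent.Lib.MP_dc7230_lc.Defs

/-!
# MP_dc7230_lc: interface between the constructible part and the tree part
-/

namespace Pool.MP_dc7230_lc

open Set Cardinal

/-- The assignment `g` on `D` is coherent below every element of `D`. -/
def CohAt {𝒞 : Type 1} (Code : W → Set 𝒞) (C : W → 𝒞 → Set W) (rs : W → W → 𝒞 → 𝒞)
    (D : Set W) (g : W → 𝒞) : Prop :=
  ∀ δ ∈ D, g δ ∈ Code δ ∧ C δ (g δ) = D ∩ Iio δ ∧ ∀ ε ∈ D, ε < δ → rs δ ε (g δ) = g ε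

/-- Abstract systems of codes.  `Code γ` is the (small) set of codes at `γ`; a code `c` at `γ`
knows a set `C γ c` of ordinals below `γ`, and for every `δ` in this set a code `rs γ δ c` at `δ`. -/
structure CodeSys (𝒞 : Type 1) where
  Code : W → Set 𝒞
  C : W → 𝒞 → Set W
  rs : W → W → 𝒞 → 𝒞
  C_lt : ∀ γ, ∀ c ∈ Code γ, ∀ δ ∈ C γ c, δ < γ
  rs_mem : ∀ γ, ∀ c ∈ Code γ, ∀ δ ∈ C γ c, rs γ δ c ∈ Code δ
  C_rs : ∀ γ, ∀ c ∈ Code γ, ∀ δ ∈ C γ c, C δ (rs γ δ c) = C γ c ∩ Iio δ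
  rs_rs : ∀ γ, ∀ c ∈ Code γ, ∀ δ ∈ C γ c, ∀ ε ∈ C γ c, ε < δ → rs δ ε (rs γ δ c) = rs γ ε c
  /-- limits of uncountable cofinality -/
  lim : ∀ γ : W, (∀ s : ℕ → W, (∀ n, s n < γ) → ∃ δ < γ, ∀ n, s n ≤ δ) →
    ∀ (D : Set W) (g : W → 𝒞), D.Nonempty → (∀ δ ∈ D, δ < γ) → (∀ ε < γ, ∃ δ ∈ D, ε < δ) →
      CohAt Code C rs D g → ∃ c ∈ Code γ, C γ c = D ∧ ∀ δ ∈ D, rs γ δ c = g δ
  card : ∀ γ, #(Code γ) ≤ aleph 1
  /-- indices of the threads -/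
  ι : Type
  card_ι : aleph 2 < #ι
  DT : ι → Set W
  gT : ι → W → 𝒞
  coh : ∀ b, CohAt Code C rs (DT b) (gT b)
  inj : ∀ b b', DT b = DT b' → (∀ δ ∈ DT b, gT b δ = gT b' δ) → b = b'

end Pool.MP_dc7230_lc
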