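import Mathlib
import Pool.Agent.Lib.MP_dc7230_lc.Collapse
import Pool.Agent.Lib.MP_dc7230_lc.FiltI
import Pool.Agent.Lib.MP_dc7230_lc.TreeI

/-!
# MP_dc7230_lc: codes and connecting maps
-/

namespace Pool.MP_dc7230_lc

open Set FirstOrder
open FirstOrder.Language hiding card

/-! ### Definable closure and elementary maps -/

lemma ud_dclf {n : ℕ} (φ : LR.Formula (Fin n ⊕ Unit)) : UD (Fin n ⊕ Unit) (fun M v =>
    ∀ y, φ.Realize (Sum.elim (fun i => v (Sum.inl i)) (fun _ => y)) ↔ y = v (Sum.inr ())) := by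
  have h0 : UD (Fin n ⊕ Unit) (fun _ v => φ.Realize v) := ⟨φ, fun _ _ => Iff.rfl⟩
  refine (UD.all (UD.iff (h0.comp (Sum.elim (fun i => some (Sum.inl i)) (fun _ => none)))
    (UD.eq none (some (Sum.inr ()))))).congr fun M v => ?_
  refine forall_congr' fun y => iff_congr (iff_of_eq ?_) Iff.rfl
  congr 1
  funext a
  rcases a with a | a <;> rfl

lemma ud_exf {n : ℕ} (φ : LR.Formula (Fin n ⊕ Unit)) : UD (Fin n) (fun M v =>
    ∃ y, φ.Realize (Sum.elim v (fun _ => y))) := by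
  have h0 : UD (Fin n ⊕ Unit) (fun _ v => φ.Realize v) := ⟨φ, fun _ _ => Iff.rfl⟩
  refine (UD.ex (h0.comp (Sum.elim (fun i => some i) (fun _ => none)))).congr fun M v => ?_
  refine exists_congr fun y => iff_of_eq ?_
  congr 1
  funext a
  rcases a with a | a <;> rfl

section
variable {M M' : Str} {σ τ : M.N → M'.N}

lemma El.dclf (h : El M M' σ) {n : ℕ} (φ : LR.Formula (Fin n ⊕ Unit)) (z : Fin n → M.N)
    (x : M.N) : (∀ y, φ.Realize (Sum.elim (fun i => σ (z i)) (fun _ => y)) ↔ y = σ x) ↔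
      (∀ y, φ.Realize (Sum.elim z (fun _ => y)) ↔ y = x) :=
  h.ud (ud_dclf φ) (Sum.elim z (fun _ => x))

lemma dcl_map (h : El M M' σ) {Z : Set M.N} {x : M.N} (hx : x ∈ dcl M Z) {Z' : Set M'.N}
    (hZ : ∀ z ∈ Z, σ z ∈ Z') : σ x ∈ dcl M' Z' := by
  obtain ⟨n, φ, z, hz, hφ⟩ := hx
  exact ⟨n, φ, fun i => σ (z i), fun i => hZ _ (hz i), (h.dclf φ z x).2 hφ⟩

lemma dcl_of_map (h : El M M' σ) {Z : Set M.N} {x : M.N} {Z' : Set M'.N}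
    (hx : σ x ∈ dcl M' Z') (hZ : ∀ z ∈ Z', ∃ z' ∈ Z, σ z' = z) : x ∈ dcl M Z := by
  obtain ⟨n, φ, z, hz, hφ⟩ := hx
  choose z' hz' hzz using fun i => hZ _ (hz i)
  refine ⟨n, φ, z', hz', (h.dclf φ z' x).1 ?_⟩
  rwa [funext hzz]

lemma dcl_agree (h : El M M' σ) (h' : El M M' τ) {Z : Set M.N} {x : M.N} (hx : x ∈ dcl M Z)
    (hZ : ∀ z ∈ Z, σ z = τ z) : σ x = τ x := by
  obtain ⟨n, φ, z, hz, hφ⟩ := hx
  have h1 := (h.dclf φ z x).2 hφ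
  have h2 := (h'.dclf φ z x).2 hφ
  have h3 : (fun i => σ (z i)) = (fun i => τ (z i)) := funext fun i => hZ _ (hz i)
  rw [h3] at h1
  exact (h2 _).1 ((h1 _).2 rfl)

lemma dcl_range (h : El M M' σ) {x : M'.N} {Z' : Set M'.N} (hx : x ∈ dcl M' Z')
    (hZ : ∀ z ∈ Z', ∃ z', σ z' = z) : ∃ x', σ x' = x := by
  obtain ⟨n, φ, z, hz, hφ⟩ := hx
  choose z' hz' using fun i => hZ _ (hz i)
  have h1 : (fun i => σ (z' i)) = z := funext hz'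
  have h2 : ∃ y, φ.Realize (Sum.elim (fun i => σ (z' i)) (fun _ => y)) :=
    ⟨x, by rw [h1]; exact (hφ x).2 rfl⟩
  obtain ⟨y, hy⟩ := (h.ud (ud_exf φ) z').1 h2
  refine ⟨y, (hφ _).1 ?_⟩
  rw [← h1]
  have h3 := (h.formula φ (Sum.elim z' (fun _ => y))).2 hy
  convert h3 using 1
  funext a
  rcases a with a | a <;> rfl

lemma dcl_mono' {M : Str} {Z Z' : Set M.N} (h : ∀ z ∈ Z, z ∈ Z') {x : M.N} (hx : x ∈ dcl M Z) :
    x ∈ dcl M Z' := by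
  obtain ⟨n, φ, z, hz, hφ⟩ := hx
  exact ⟨n, φ, z, fun i => h _ (hz i), hφ⟩

end

/-! ### New subsets -/

/-- there is a subset of `η` which appears in the hierarchy exactly at `τ` -/
def Str.New (M : Str) (η τ : M.N) : Prop :=
  ∃ a, (∀ z, M.E z a → M.E z η) ∧ M.R a τ ∧ ∀ τ', M.E τ' τ → ¬ M.R a τ'

def Str.cI (M : Str) (m n : M.N) : Prop := ∀ η, M.E η n → ∀ τ, M.New η τ → M.E τ m

def Str.cII (M : Str) (n : M.N) : Prop := ∀ δ, M.IsO δ → ∃ τ, M.E δ τ ∧ M.New n τ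

lemma ud_new {α : Type} (η τ : α) : UD α (fun M v => M.New (v η) (v τ)) :=
  (UD.ex (UD.and (UD.all (UD.imp (UD.mem none (some none)) (UD.mem none (some (some η)))))
    (UD.and (UD.lev none (some τ)) (UD.all (UD.imp (UD.mem none (some (some τ)))
      (UD.not (UD.lev (some none) none))))))).congr fun _ _ => Iff.rfl

lemma ud_cI {α : Type} (m n : α) : UD α (fun M v => M.cI (v m) (v n)) :=
  (UD.all (UD.imp (UD.mem none (some n)) (UD.all (UD.imp (ud_new (some none) none)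
    (UD.mem none (some (some m))))))).congr fun _ _ => Iff.rfl

lemma ud_cII {α : Type} (n : α) : UD α (fun M v => M.cII (v n)) :=
  (UD.all (UD.imp (ud_isO none) (UD.ex (UD.and (UD.mem (some none) none)
    (ud_new (some (some n)) none))))).congr fun _ _ => Iff.rfl

lemma El.new {M M' : Str} {j : M.N → M'.N} (h : El M M' j) {x y : M.N} :
    M'.New (j x) (j y) ↔ M.New x y := h.ud (ud_new (0 : Fin 2) 1) ![x, y]

lemma El.cI {M M' : Str} {j : M.N → M'.N} (h : El M M' j) {x y : M.N} :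
    M'.cI (j x) (j y) ↔ M.cI x y := h.ud (ud_cI (0 : Fin 2) 1) ![x, y]

lemma El.cII {M M' : Str} {j : M.N → M'.N} (h : El M M' j) {x : M.N} :
    M'.cII (j x) ↔ M.cII x := h.ud (ud_cII ()) (fun _ => x)

/-! ### Presentations and connecting maps -/

/-- pointed structures -/
structure Pr : Type 2 where
  M : Str
  o : Ordinal.{0} → M.N
  a : M.N

/-- generators -/
def Pr.gens (P : Pr) (m : Ordinal.{0}) : Set P.M.N := {z | z = P.a ∨ ∃ ξ ≤ m, P.o ξ = z}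

variable {μ ν : Ordinal.{0}} (F : Filt μ ν)

structure Conn (δ γ : Ordinal.{0}) (P' P : Pr) (σ : P'.M.N → P.M.N) : Prop where
  el : El P'.M P.M σ
  a : σ P'.a = P.a
  o : ∀ ξ < F.m δ, σ (P'.o ξ) = P.o (F.e δ γ ξ)
  m : σ (P'.o (F.m δ)) = P.o (F.m γ)

structure IsPres (γ : Ordinal.{0}) (P : Pr) : Prop where
  pl : PL P.M
  o_E : ∀ ξ ζ, ζ ≤ F.m γ → ξ < ζ → P.M.E (P.o ξ) (P.o ζ)
  o_down : ∀ ζ ≤ F.m γ, ∀ x, P.M.E x (P.o ζ) → ∃ ξ < ζ, P.o ξ = x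
  gen : ∀ x, x ∈ dcl P.M (P.gens (F.m γ))
  cI : P.M.cI (P.o (F.m γ)) (P.o (F.n γ))
  cII : P.M.cII (P.o (F.n γ))

variable {F}

lemma Conn.gens {δ γ : Ordinal.{0}} {P' P : Pr} {σ : P'.M.N → P.M.N} (h : Conn F δ γ P' P σ)
    (h1 : δ ≤ γ) (h2 : γ ≤ Ordinal.omega 2) : ∀ z ∈ P'.gens (F.m δ), σ z ∈ P.gens (F.m γ) := by
  rintro z (rfl | ⟨ξ, hξ, rfl⟩)
  · exact Or.inl h.a
  · refine Or.inr ?_
    rcases hξ.eq_or_lt with rfl | hξ
    · exact ⟨F.m γ, le_rfl, h.m.symm⟩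
    · exact ⟨F.e δ γ ξ, (F.e_lt δ γ ξ h1 h2 hξ).le, (h.o ξ hξ).symm⟩

lemma Conn.unique {δ γ : Ordinal.{0}} {P' P : Pr} {σ τ : P'.M.N → P.M.N} (hP' : IsPres F δ P')
    (h : Conn F δ γ P' P σ) (h' : Conn F δ γ P' P τ) : σ = τ := by
  funext x
  refine dcl_agree h.el h'.el (hP'.gen x) ?_
  rintro z (rfl | ⟨ξ, hξ, rfl⟩)
  · rw [h.a, h'.a]
  · rcases hξ.eq_or_lt with rfl | hξ
    · rw [h.m, h'.m]
    · rw [h.o ξ hξ, h'.o ξ hξ]

lemma Conn.trans {δ γ γ' : Ordinal.{0}} {P'' P' P : Pr} {σ : P''.M.N → P'.M.N}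
    {τ : P'.M.N → P.M.N} (h1 : δ ≤ γ) (h2 : γ ≤ γ') (h3 : γ' ≤ Ordinal.omega 2)
    (h : Conn F δ γ P'' P' σ) (h' : Conn F γ γ' P' P τ) : Conn F δ γ' P'' P (τ ∘ σ) where
  el := El.comp h'.el h.el
  a := by
    show τ (σ _) = _
    rw [h.a, h'.a]
  o ξ hξ := by
    show τ (σ _) = _
    rw [h.o ξ hξ, h'.o _ (F.e_lt δ γ ξ h1 (h2.trans h3) hξ), F.e_comp δ γ γ' ξ h1 h2 h3 hξ]
  m := by
    show τ (σ _) = _
    rw [h.m, h'.m]

lemma Conn.factor {δ γ γ' : Ordinal.{0}} {P'' P' P : Pr} {ρ : P''.M.N → P.M.N}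
    {τ : P'.M.N → P.M.N} (hP : IsPres F δ P'') (h1 : δ ≤ γ) (h2 : γ ≤ γ')
    (h3 : γ' ≤ Ordinal.omega 2) (h : Conn F δ γ' P'' P ρ) (h' : Conn F γ γ' P' P τ) :
    ∃ σ, Conn F δ γ P'' P' σ := by
  have key : ∀ x, ∃ y, τ y = ρ x := by
    intro x
    have h4 := dcl_map h.el (hP.gen x) (Z' := ρ '' P''.gens (F.m δ)) (fun z hz => ⟨z, hz, rfl⟩)
    refine dcl_range h'.el h4 ?_
    rintro _ ⟨z, (rfl | ⟨ξ, hξ, rfl⟩), rfl⟩
    · exact ⟨P'.a, by rw [h'.a, h.a]⟩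
    · rcases hξ.eq_or_lt with rfl | hξ
      · exact ⟨P'.o (F.m γ), by rw [h'.m, h.m]⟩
      · exact ⟨P'.o (F.e δ γ ξ), by
          rw [h'.o _ (F.e_lt δ γ ξ h1 (h2.trans h3) hξ), h.o ξ hξ, F.e_comp δ γ γ' ξ h1 h2 h3 hξ]⟩
  choose σ hσ using key
  have h5 : τ ∘ σ = ρ := funext hσ
  refine ⟨σ, El.of_comp h'.el (by rw [h5]; exact h.el), h'.el.inj ?_, fun ξ hξ => h'.el.inj ?_,
    h'.el.inj ?_⟩
  · rw [hσ, h.a, h'.a]
  · rw [hσ, h.o ξ hξ, h'.o _ (F.e_lt δ γ ξ h1 (h2.trans h3) hξ), F.e_comp δ γ γ' ξ h1 h2 h3 hξ]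
  · rw [hσ, h.m, h'.m]

lemma Conn.refl {γ : Ordinal.{0}} (hγ : γ ≤ Ordinal.omega 2) (P : Pr) :
    Conn F γ γ P P (fun x => x) :=
  ⟨El.id, rfl, fun ξ hξ => by rw [F.e_refl γ ξ hγ hξ], rfl⟩

/-! ### Codes -/

/-- A possible code: a limit ordinal `β` and a set `a ∈ L_β`. -/
structure Cd : Type 1 where
  β : Ordinal.{0}
  lim : Order.IsSuccLimit β
  a : (LM β).N

lemma Cd.pos (c : Cd) : 0 < c.β := c.lim.bot_lt

/-- the pointed structure of a code -/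
noncomputable def Cd.pr (c : Cd) : Pr :=
  ⟨LM c.β, fun ξ => if h : ξ < c.β then LM.o ξ h else LM.o 0 c.pos, c.a⟩

lemma Cd.ext' {c c' : Cd} (h1 : c.β = c'.β) (h2 : c.a.1 = c'.a.1) : c = c' := by
  obtain ⟨β, _, a⟩ := c
  obtain ⟨β', _, a'⟩ := c'
  simp only at h1
  subst h1
  congr
  exact Subtype.ext h2

lemma Cd.o_val (c : Cd) {ξ : Ordinal.{0}} (h : ξ < c.β) : c.pr.o ξ = LM.o ξ h := by
  show (if h : ξ < c.β then LM.o ξ h else LM.o 0 c.pos) = _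
  rw [dif_pos h]

lemma Cd.o_val' (c : Cd) {ξ : Ordinal.{0}} (h : ξ < c.β) :
    (c.pr.o ξ : (LM c.β).N).1 = ξ.toZFSet := by
  rw [c.o_val h]
  rfl

variable (F) in
/-- `c` is a code at `γ` -/
def IsCode (γ : Ordinal.{0}) (c : Cd) : Prop := F.m γ < c.β ∧ IsPres F γ c.pr

lemma code_unique {δ γ : Ordinal.{0}} {c c' : Cd} {P : Pr} (hδ : δ ≤ γ)
    (hγ : γ ≤ Ordinal.omega 2) (hc : IsCode F δ c) (hc' : IsCode F δ c')
    {σ : c.pr.M.N → P.M.N} {σ' : c'.pr.M.N → P.M.N}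
    (h : Conn F δ γ c.pr P σ) (h' : Conn F δ γ c'.pr P σ') : c = c' := by
  obtain ⟨f, hf⟩ := Conn.factor hc.2 le_rfl hδ hγ h h'
  obtain ⟨g, hg⟩ := Conn.factor hc'.2 le_rfl hδ hγ h' h
  have h1 := Conn.unique hc.2 (Conn.trans le_rfl le_rfl (hδ.trans hγ) hf hg)
    (Conn.refl (hδ.trans hγ) _)
  have h2 := Conn.unique hc'.2 (Conn.trans le_rfl le_rfl (hδ.trans hγ) hg hf)
    (Conn.refl (hδ.trans hγ) _)
  let e : (LM c.β).N ≃ (LM c'.β).N := ⟨f, g, fun x => congrFun h1 x, fun x => congrFun h2 x⟩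
  obtain ⟨h3, h4⟩ := LM_rigid e (fun x y => hf.el.E)
  refine Cd.ext' h3 ?_
  rw [← h4 c.a]
  exact congrArg Subtype.val hf.a

lemma IsPres.transfer {γ : Ordinal.{0}} {P : Pr} (hγ : γ ≤ Ordinal.omega 2)
    (hP : IsPres F γ P) {Q : Pr} (e : P.M.N ≃ Q.M.N)
    (he : El P.M Q.M e) (ha : e P.a = Q.a) (ho : ∀ ξ ≤ F.m γ, e (P.o ξ) = Q.o ξ)
    (hQ : PL Q.M) : IsPres F γ Q where
  pl := hQ
  o_E ξ ζ hζ hξ := by
    rw [← ho ζ hζ, ← ho ξ (hξ.le.trans hζ), he.E]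
    exact hP.o_E ξ ζ hζ hξ
  o_down ζ hζ x hx := by
    have h1 : x = e (e.symm x) := (e.apply_symm_apply x).symm
    rw [h1, ← ho ζ hζ, he.E] at hx
    obtain ⟨ξ, hξ, h2⟩ := hP.o_down ζ hζ _ hx
    refine ⟨ξ, hξ, ?_⟩
    rw [← ho ξ (hξ.le.trans hζ), h2, ← h1]
  gen x := by
    have h1 : x = e (e.symm x) := (e.apply_symm_apply x).symm
    rw [h1]
    refine dcl_map he (hP.gen _) ?_
    rintro z (rfl | ⟨ξ, hξ, rfl⟩)
    · exact Or.inl ha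
    · exact Or.inr ⟨ξ, hξ, (ho ξ hξ).symm⟩
  cI := by
    rw [← ho _ le_rfl, ← ho _ (F.n_lt γ hγ).le, he.cI]
    exact hP.cI
  cII := by
    rw [← ho _ (F.n_lt γ hγ).le, he.cII]
    exact hP.cII

theorem exists_code {γ : Ordinal.{0}} {P : Pr} [Small.{0} P.M.N] (hγ : γ ≤ Ordinal.omega 2)
    (hP : IsPres F γ P) : ∃ c : Cd, IsCode F γ c ∧ ∃ e : P.M.N ≃ c.pr.M.N, El P.M c.pr.M e ∧
      e P.a = c.pr.a ∧ ∀ ξ ≤ F.m γ, e (P.o ξ) = c.pr.o ξ := by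
  have : Nonempty P.M.N := ⟨P.a⟩
  obtain ⟨β, hβ, e, hE, hR⟩ := exists_collapse hP.pl
  have hel := El_of_equiv e hE hR
  have hcol : IsCol P.M (fun x => (e x).1) := by
    intro x z
    constructor
    · intro hz
      refine ⟨e.symm ⟨z, Lset_trans (e x).2 hz⟩, ?_, congrArg Subtype.val (e.apply_symm_apply _)⟩
      rw [← hE, Equiv.apply_symm_apply]
      exact hz
    · rintro ⟨y, hy, rfl⟩
      exact (hE y x).2 hy
  have ho : ∀ ξ ≤ F.m γ, (e (P.o ξ)).1 = ξ.toZFSet := by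
    intro ξ
    induction ξ using WellFoundedLT.induction with
    | _ ξ ih =>
      intro hξ
      ext z
      have h1 := hcol (P.o ξ) z
      simp only at h1
      rw [h1, Ordinal.mem_toZFSet_iff]
      constructor
      · rintro ⟨y, hy, rfl⟩
        obtain ⟨ζ, hζ, rfl⟩ := hP.o_down ξ hξ y hy
        exact ⟨ζ, hζ, (ih ζ hζ (hζ.le.trans hξ)).symm⟩
      · rintro ⟨ζ, hζ, rfl⟩
        exact ⟨P.o ζ, hP.o_E ζ ξ hξ hζ, ih ζ hζ (hζ.le.trans hξ)⟩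
  let c : Cd := ⟨β, hβ, e P.a⟩
  have hm : ∀ ξ ≤ F.m γ, ξ < c.β := by
    intro ξ hξ
    apply ord_mem_Lset.1
    rw [← ho ξ hξ]
    exact (e (P.o ξ)).2
  have ho' : ∀ ξ ≤ F.m γ, e (P.o ξ) = c.pr.o ξ := by
    intro ξ hξ
    apply Subtype.ext
    rw [ho ξ hξ]
    exact (c.o_val' (hm ξ hξ)).symm
  exact ⟨c, ⟨hm _ le_rfl, hP.transfer hγ (Q := c.pr) e hel rfl ho' (PL_LM hβ)⟩, e, hel, rfl, ho'⟩

end Pool.MP_dc7230_lc
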