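import Mathlib
import Pool.Agent.Lib.MP_dc7230_lc.Codes

/-!
# MP_dc7230_lc: direct limits of elementary chains
-/

namespace Pool.MP_dc7230_lc

open Set

theorem exists_dirlim {I : Type} [LinearOrder I] (M : I → Str)
    (σ : ∀ i j, (M i).N → (M j).N)
    (hEl : ∀ i j, i ≤ j → El (M i) (M j) (σ i j))
    (hcomp : ∀ i j k, i ≤ j → j ≤ k → ∀ x, σ j k (σ i j x) = σ i k x) :
    ∃ (M' : Str) (j : ∀ i, (M i).N → M'.N), (∀ i, El (M i) M' (j i)) ∧
      (∀ i k, i ≤ k → ∀ x, j k (σ i k x) = j i x) ∧ (∀ y, ∃ i x, j i x = y) := by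
  let r : (Σ i, (M i).N) → (Σ i, (M i).N) → Prop := fun a b =>
    ∃ l, a.1 ≤ l ∧ b.1 ≤ l ∧ σ a.1 l a.2 = σ b.1 l b.2
  have hid : ∀ i x, σ i i x = x := fun i x => (hEl i i le_rfl).inj (hcomp i i i le_rfl le_rfl x)
  let S : Setoid (Σ i, (M i).N) := ⟨r, fun a => ⟨a.1, le_rfl, le_rfl, rfl⟩,
    fun {a b} ⟨l, h1, h2, h3⟩ => ⟨l, h2, h1, h3.symm⟩, by
      rintro ⟨i, x⟩ ⟨j, y⟩ ⟨k, z⟩ ⟨l, h1, h2, h3⟩ ⟨l', h1', h2', h3'⟩
      simp only at h1 h2 h3 h1' h2' h3'
      refine ⟨max l l', h1.trans (le_max_left _ _), h2'.trans (le_max_right _ _), ?_⟩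
      simp only
      rw [← hcomp i l (max l l') h1 (le_max_left _ _), h3,
        hcomp j l (max l l') h2 (le_max_left _ _),
        ← hcomp j l' (max l l') h1' (le_max_right _ _), h3',
        hcomp k l' (max l l') h2' (le_max_right _ _)]⟩
  let j : ∀ i, (M i).N → Quotient S := fun i x => Quotient.mk S ⟨i, x⟩
  have heq : ∀ i k x y, j i x = j k y → ∀ l, i ≤ l → k ≤ l → σ i l x = σ k l y := by
    intro i k x y h l hi hk
    obtain ⟨l₀, h1, h2, h3⟩ : r ⟨i, x⟩ ⟨k, y⟩ := Quotient.exact h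
    simp only at h1 h2 h3
    apply (hEl l (max l l₀) (le_max_left _ _)).inj
    rw [hcomp i l _ hi (le_max_left _ _), hcomp k l _ hk (le_max_left _ _),
      ← hcomp i l₀ _ h1 (le_max_right _ _), h3, hcomp k l₀ _ h2 (le_max_right _ _)]
  have hj : ∀ i k, i ≤ k → ∀ x, j k (σ i k x) = j i x := by
    intro i k hik x
    apply Quotient.sound
    exact ⟨k, le_rfl, hik, hid _ _⟩
  have hsur : ∀ y, ∃ i x, j i x = y := by
    intro y
    obtain ⟨⟨i, x⟩, rfl⟩ := Quotient.exists_rep y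
    exact ⟨i, x, rfl⟩
  let M' : Str := ⟨Quotient S, fun u v => ∃ i x y, j i x = u ∧ j i y = v ∧ (M i).E x y,
    fun u v => ∃ i x y, j i x = u ∧ j i y = v ∧ (M i).R x y⟩
  refine ⟨M', j, ?_, hj, hsur⟩
  refine El_of (M := M) (M' := M') j (fun i k => i ≤ k) (fun i k => σ i k) (fun i k h x => hj i k h x)
    (fun i k h => hEl i k h) ?_ ?_ ?_ ?_
  · intro i y
    obtain ⟨k, x, rfl⟩ := hsur y
    exact ⟨max i k, le_max_left _ _, σ k (max i k) x, hj _ _ (le_max_right _ _) _⟩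
  · intro i x y
    constructor
    · rintro ⟨k, x', y', h1, h2, h3⟩
      have h4 := heq k i x' x h1 (max i k) (le_max_right _ _) (le_max_left _ _)
      have h5 := heq k i y' y h2 (max i k) (le_max_right _ _) (le_max_left _ _)
      rw [← (hEl i (max i k) (le_max_left _ _)).E, ← h4, ← h5,
        (hEl k (max i k) (le_max_right _ _)).E]
      exact h3
    · intro h
      exact ⟨i, x, y, rfl, rfl, h⟩
  · intro i x y
    constructor
    · rintro ⟨k, x', y', h1, h2, h3⟩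
      have h4 := heq k i x' x h1 (max i k) (le_max_right _ _) (le_max_left _ _)
      have h5 := heq k i y' y h2 (max i k) (le_max_right _ _) (le_max_left _ _)
      rw [← (hEl i (max i k) (le_max_left _ _)).R, ← h4, ← h5,
        (hEl k (max i k) (le_max_right _ _)).R]
      exact h3
    · intro h
      exact ⟨i, x, y, rfl, rfl, h⟩
  · intro i x y h
    exact (hEl i i le_rfl).inj (heq i i x y h i le_rfl le_rfl)

/-- direct limits of uncountable cofinality are well-founded -/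
theorem dirlim_wf {I : Type} [LinearOrder I] {M : I → Str} {σ : ∀ i j, (M i).N → (M j).N}
    {M' : Str} {j : ∀ i, (M i).N → M'.N} (hwf : ∀ i, WellFounded (M i).E)
    (hEl : ∀ i, El (M i) M' (j i)) (hj : ∀ i k, i ≤ k → ∀ x, j k (σ i k x) = j i x)
    (hsur : ∀ y, ∃ i x, j i x = y) (hI : ∀ s : ℕ → I, ∃ i, ∀ n, s n ≤ i) :
    WellFounded M'.E := by
  rw [wellFounded_iff_isEmpty_descending_chain]
  refine ⟨fun ⟨f, hf⟩ => ?_⟩
  choose s x hx using fun n => hsur (f n)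
  obtain ⟨i, hi⟩ := hI s
  have h1 : ∀ n, j i (σ (s n) i (x n)) = f n := fun n => by rw [hj _ _ (hi n), hx]
  refine (wellFounded_iff_isEmpty_descending_chain.1 (hwf i)).false
    ⟨fun n => σ (s n) i (x n), fun n => ?_⟩
  rw [← (hEl i).E, h1, h1]
  exact hf n

/-- directed unions -/
lemma dirlim_PLa {I : Type} [LinearOrder I] [Nonempty I] {M : I → Str}
    {σ : ∀ i j, (M i).N → (M j).N}
    {M' : Str} {j : ∀ i, (M i).N → M'.N} (hPL : ∀ i, PLa (M i))
    (hEl : ∀ i, El (M i) M' (j i)) (hj : ∀ i k, i ≤ k → ∀ x, j k (σ i k x) = j i x)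
    (hsur : ∀ y, ∃ i x, j i x = y) : PLa M' := by
  refine PLa.of_cover fun n v => ?_
  choose s x hx using fun n => hsur (v n)
  obtain ⟨i, hi⟩ : ∃ i, ∀ n, s n ≤ i := by
    obtain ⟨i, hi⟩ := (Set.finite_range s).bddAbove
    exact ⟨i, fun n => hi ⟨n, rfl⟩⟩
  exact ⟨M i, j i, hPL i, hEl i, fun n => ⟨σ (s n) i (x n), by rw [hj _ _ (hi n), hx]⟩⟩

end Pool.MP_dc7230_lc
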