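import Mathlib
import Pool.Agent.Lib.MP_dc7230_lc.DirLim

/-!
# MP_dc7230_lc: limits of codes
-/

namespace Pool.MP_dc7230_lc

open Set

variable {μ ν : Ordinal.{0}} {F : Filt μ ν}

lemma Filt.e_lt_iff (F : Filt μ ν) {δ γ ξ ξ' : Ordinal.{0}} (h1 : δ ≤ γ)
    (h2 : γ ≤ Ordinal.omega 2) (hξ : ξ < F.m δ) (hξ' : ξ' < F.m δ) :
    F.e δ γ ξ < F.e δ γ ξ' ↔ ξ < ξ' := by
  constructor
  · intro h
    by_contra hcon
    push Not at hcon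
    rcases hcon.eq_or_lt with h3 | h3
    · rw [h3] at h
      exact lt_irrefl _ h
    · exact lt_asymm h (F.e_mono δ γ ξ' ξ h1 h2 h3 hξ)
  · exact fun h => F.e_mono δ γ ξ ξ' h1 h2 h hξ'

lemma Filt.e_inj (F : Filt μ ν) {δ γ ξ ξ' : Ordinal.{0}} (h1 : δ ≤ γ)
    (h2 : γ ≤ Ordinal.omega 2) (hξ : ξ < F.m δ) (hξ' : ξ' < F.m δ)
    (h : F.e δ γ ξ = F.e δ γ ξ') : ξ = ξ' := by
  rcases lt_trichotomy ξ ξ' with h3 | h3 | h3
  · have := F.e_mono δ γ ξ ξ' h1 h2 h3 hξ'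
    rw [h] at this
    exact absurd this (lt_irrefl _)
  · exact h3
  · have := F.e_mono δ γ ξ' ξ h1 h2 h3 hξ
    rw [h] at this
    exact absurd this (lt_irrefl _)

instance (β : Ordinal.{0}) : Small.{0} (LM β).N :=
  inferInstanceAs (Small.{0} {x : ZFSet.{0} // x ∈ Lset β})

lemma Conn.of_iso {γ : Ordinal.{0}} (hγ : γ ≤ Ordinal.omega 2) {P Q : Pr} {e : P.M.N → Q.M.N}
    (he : El P.M Q.M e) (ha : e P.a = Q.a) (ho : ∀ ξ ≤ F.m γ, e (P.o ξ) = Q.o ξ) :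
    Conn F γ γ P Q e :=
  ⟨he, ha, fun ξ hξ => by rw [ho ξ hξ.le, F.e_refl γ ξ hγ hξ], ho _ le_rfl⟩

theorem lim_code {I : Type} [LinearOrder I] [Nonempty I] {d : I → Ordinal.{0}}
    (hd : Monotone d) {γ : Ordinal.{0}} (hγ : γ ≤ Ordinal.omega 2) (hdγ : ∀ i, d i < γ)
    (hcof : ∀ ε < γ, ∃ i, ε < d i) (hI : ∀ s : ℕ → I, ∃ i, ∀ n, s n ≤ i) {c : I → Cd}
    (hc : ∀ i, IsCode F (d i) (c i))
    (hconn : ∀ i k, i ≤ k → ∃ σ, Conn F (d i) (d k) (c i).pr (c k).pr σ) :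
    ∃ c' : Cd, IsCode F γ c' ∧ ∀ i, ∃ σ, Conn F (d i) γ (c i).pr c'.pr σ := by
  classical
  have hdκ : ∀ i, d i ≤ Ordinal.omega 2 := fun i => (hdγ i).le.trans hγ
  -- the connecting maps
  have h0 : ∀ i k, ∃ σ : (c i).pr.M.N → (c k).pr.M.N, i ≤ k →
      Conn F (d i) (d k) (c i).pr (c k).pr σ := by
    intro i k
    by_cases hik : i ≤ k
    · obtain ⟨σ, hσ⟩ := hconn i k hik
      exact ⟨σ, fun _ => hσ⟩
    · exact ⟨fun _ => (c k).pr.a, fun h => absurd h hik⟩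
  choose σ hσ using h0
  have hcomp : ∀ i j k, i ≤ j → j ≤ k → ∀ x, σ j k (σ i j x) = σ i k x := by
    intro i j k hij hjk x
    exact congrFun (Conn.unique (hc i).2 (Conn.trans (hd hij) (hd hjk) (hdκ k) (hσ i j hij)
      (hσ j k hjk)) (hσ i k (hij.trans hjk))) x
  obtain ⟨M', j, hEl, hj, hsur⟩ := exists_dirlim (fun i => (c i).pr.M) σ
    (fun i k h => (hσ i k h).el) hcomp
  have : ∀ i, Small.{0} (c i).pr.M.N := fun i => inferInstanceAs (Small.{0} (LM (c i).β).N)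
  have hsmall : Small.{0} M'.N := by
    refine small_of_surjective (f := fun x : (Σ i, (c i).pr.M.N) => j x.1 x.2) fun y => ?_
    obtain ⟨i, x, h⟩ := hsur y
    exact ⟨⟨i, x⟩, h⟩
  have hwf : WellFounded M'.E := dirlim_wf (fun i => (hc i).2.pl.wf) hEl hj hsur hI
  have hPLa : PLa M' := dirlim_PLa (fun i => (hc i).2.pl.a) hEl hj hsur
  -- the points
  have keyA : ∀ i k ξ' ξ'', ξ' < F.m (d i) → ξ'' < F.m (d k) →
      F.e (d i) γ ξ' = F.e (d k) γ ξ'' → j i ((c i).pr.o ξ') = j k ((c k).pr.o ξ'') := by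
    intro i k ξ' ξ'' h1 h2 h3
    have hi := le_max_left i k
    have hk := le_max_right i k
    rw [← hj i (max i k) hi, ← hj k (max i k) hk, (hσ i _ hi).o ξ' h1, (hσ k _ hk).o ξ'' h2]
    have h4 : F.e (d i) (d (max i k)) ξ' = F.e (d k) (d (max i k)) ξ'' := by
      apply F.e_inj (hdγ (max i k)).le hγ (F.e_lt _ _ _ (hd hi) (hdκ _) h1)
        (F.e_lt _ _ _ (hd hk) (hdκ _) h2)
      rw [F.e_comp _ _ _ _ (hd hi) (hdγ _).le hγ h1, F.e_comp _ _ _ _ (hd hk) (hdγ _).le hγ h2, h3]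
    rw [h4]
  have keyB : ∀ i k, j i ((c i).pr.o (F.m (d i))) = j k ((c k).pr.o (F.m (d k))) := by
    intro i k
    have hi := le_max_left i k
    have hk := le_max_right i k
    rw [← hj i (max i k) hi, ← hj k (max i k) hk, (hσ i _ hi).m, (hσ k _ hk).m]
  have keyC : ∀ i k, j i (c i).pr.a = j k (c k).pr.a := by
    intro i k
    have hi := le_max_left i k
    have hk := le_max_right i k
    rw [← hj i (max i k) hi, ← hj k (max i k) hk, (hσ i _ hi).a, (hσ k _ hk).a]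
  obtain ⟨i₀⟩ := ‹Nonempty I›
  have hpt : ∀ ξ : Ordinal.{0}, ∃ x : M'.N, (∀ i, ∀ ξ' < F.m (d i), F.e (d i) γ ξ' = ξ →
      j i ((c i).pr.o ξ') = x) ∧ (ξ = F.m γ → ∀ i, j i ((c i).pr.o (F.m (d i))) = x) := by
    intro ξ
    by_cases h1 : ξ = F.m γ
    · refine ⟨j i₀ ((c i₀).pr.o (F.m (d i₀))), fun i ξ' h2 h3 => ?_, fun _ i => keyB _ _⟩
      have := F.e_lt (d i) γ ξ' (hdγ i).le hγ h2
      rw [h3, h1] at this
      exact absurd this (lt_irrefl _)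
    · by_cases h2 : ∃ i, ∃ ξ' < F.m (d i), F.e (d i) γ ξ' = ξ
      · obtain ⟨i, ξ', h3, h4⟩ := h2
        exact ⟨j i ((c i).pr.o ξ'), fun k ξ'' h5 h6 => keyA _ _ _ _ h5 h3 (h6.trans h4.symm),
          fun h => absurd h h1⟩
      · exact ⟨j i₀ (c i₀).pr.a, fun i ξ' h3 h4 => absurd ⟨i, ξ', h3, h4⟩ h2,
          fun h => absurd h h1⟩
  choose o ho1 ho2 using hpt
  -- covering
  have hcov : ∀ ξ < F.m γ, ∀ i₀, ∃ i, i₀ ≤ i ∧ ∃ ξ' < F.m (d i), F.e (d i) γ ξ' = ξ := by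
    intro ξ hξ i₀
    have h1 : 0 < γ := pos_of_gt (hdγ i₀)
    obtain ⟨δ, hδ, ξ', hξ', h2⟩ := F.e_cov γ h1 (fun δ hδ => by
      obtain ⟨i, hi⟩ := hcof δ hδ
      exact ⟨d i, hdγ i, hi⟩) hγ ξ hξ
    obtain ⟨i, hi⟩ := hcof δ hδ
    have h3 : δ ≤ d (max i₀ i) := hi.le.trans (hd (le_max_right _ _))
    refine ⟨max i₀ i, le_max_left _ _, F.e δ (d (max i₀ i)) ξ', F.e_lt _ _ _ h3 (hdκ _) hξ', ?_⟩
    rw [F.e_comp _ _ _ _ h3 (hdγ _).le hγ hξ', h2]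
  have hcov' : ∀ ξ ≤ F.m γ, ∀ i₀, ∃ i, i₀ ≤ i ∧ ∃ ξ' ≤ F.m (d i), o ξ = j i ((c i).pr.o ξ') ∧
      ∀ ζ < ξ', F.e (d i) γ ζ < ξ := by
    intro ξ hξ i₀
    rcases hξ.eq_or_lt with h | h
    · refine ⟨i₀, le_rfl, F.m (d i₀), le_rfl, (ho2 ξ h i₀).symm, fun ζ hζ => ?_⟩
      rw [h]
      exact F.e_lt _ _ _ (hdγ _).le hγ hζ
    · obtain ⟨i, hi, ξ', hξ', h1⟩ := hcov ξ h i₀
      refine ⟨i, hi, ξ', hξ'.le, (ho1 ξ i ξ' hξ' h1).symm, fun ζ hζ => ?_⟩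
      rw [← h1]
      exact F.e_mono _ _ _ _ (hdγ _).le hγ hζ hξ'
  let P : Pr := ⟨M', o, j i₀ (c i₀).pr.a⟩
  have hP : ∀ i, Conn F (d i) γ (c i).pr P (j i) := fun i =>
    ⟨hEl i, keyC i i₀, fun ξ hξ => ho1 _ i ξ hξ rfl, ho2 _ rfl i⟩
  have hpres : IsPres F γ P := by
    refine ⟨⟨hwf, hPLa.ext, hPLa.lev, hPLa.ex, hPLa.cof⟩, ?_, ?_, ?_, ?_, ?_⟩
    · intro ξ ζ hζ hξ
      obtain ⟨i, -, ξ', hξ', h1⟩ := hcov ξ (hξ.trans_le hζ) i₀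
      rcases hζ.eq_or_lt with h2 | h2
      · show M'.E (o ξ) (o ζ)
        rw [← ho1 ξ i ξ' hξ' h1, ← ho2 ζ h2 i, (hEl i).E]
        exact (hc i).2.o_E _ _ le_rfl hξ'
      · obtain ⟨k, hk, ζ', hζ', h3⟩ := hcov ζ h2 i
        have h4 := F.e_lt _ _ _ (hd hk) (hdκ k) hξ'
        have h5 : F.e (d k) γ (F.e (d i) (d k) ξ') = ξ := by
          rw [F.e_comp _ _ _ _ (hd hk) (hdγ _).le hγ hξ', h1]
        show M'.E (o ξ) (o ζ)
        rw [← ho1 ξ k _ h4 h5, ← ho1 ζ k ζ' hζ' h3, (hEl k).E]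
        refine (hc k).2.o_E _ _ hζ'.le ?_
        rw [← F.e_lt_iff (hdγ k).le hγ h4 hζ', h5, h3]
        exact hξ
    · intro ζ hζ x hx
      obtain ⟨k, y, rfl⟩ := hsur x
      obtain ⟨i, hi, ζ', hζ', h1, h2⟩ := hcov' ζ hζ k
      have hx' : M'.E (j k y) (o ζ) := hx
      rw [h1, ← hj k i hi, (hEl i).E] at hx'
      obtain ⟨ξ', hξ', h3⟩ := (hc i).2.o_down ζ' hζ' _ hx'
      refine ⟨F.e (d i) γ ξ', h2 ξ' hξ', ?_⟩
      show o (F.e (d i) γ ξ') = j k y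
      rw [← hj k i hi, ← h3]
      exact (ho1 _ i ξ' (hξ'.trans_le hζ') rfl).symm
    · intro x
      obtain ⟨i, y, rfl⟩ := hsur x
      exact dcl_map (hEl i) ((hc i).2.gen y) ((hP i).gens (hdγ i).le hγ)
    · have h1 := (hP i₀).m
      have h2 := (hP i₀).o _ (F.n_lt (d i₀) (hdκ i₀))
      rw [F.e_n _ _ (hdγ i₀).le hγ] at h2
      rw [← h1, ← h2]
      exact (hEl i₀).cI.2 (hc i₀).2.cI
    · have h2 := (hP i₀).o _ (F.n_lt (d i₀) (hdκ i₀))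
      rw [F.e_n _ _ (hdγ i₀).le hγ] at h2
      rw [← h2]
      exact (hEl i₀).cII.2 (hc i₀).2.cII
  have : Small.{0} P.M.N := hsmall
  obtain ⟨c', hc', e, he, hea, heo⟩ := exists_code hγ hpres
  exact ⟨c', hc', fun i => ⟨e ∘ j i, Conn.trans (hdγ i).le le_rfl hγ (hP i)
    (Conn.of_iso hγ he hea heo)⟩⟩

end Pool.MP_dc7230_lc
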