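import Mathlib
import Pool.Agent.Lib.MP_dc7230_lc.LimCode

/-!
# MP_dc7230_lc: new subsets in the universe
-/

namespace Pool.MP_dc7230_lc

open Set

/-- there is a constructible subset of `η` whose level is exactly `τ` -/
def NewV (η τ : Ordinal.{0}) : Prop :=
  ∃ a : ZFSet.{0}, a ⊆ η.toZFSet ∧ a ∈ Lset τ ∧ ∀ τ' < τ, a ∉ Lset τ'

lemma LM_new {β η τ : Ordinal.{0}} (hη : η < β) (hτ : τ < β) :
    (LM β).New (LM.o η hη) (LM.o τ hτ) ↔ NewV η τ := by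
  constructor
  · rintro ⟨a, h1, h2, h3⟩
    refine ⟨a.1, fun z hz => h1 ⟨z, Lset_trans a.2 hz⟩ hz, (LM_R τ rfl).1 h2, fun τ' hτ' h4 => ?_⟩
    exact h3 (LM.o τ' (hτ'.trans hτ)) (Ordinal.toZFSet_mem_toZFSet_iff.2 hτ')
      ((LM_R τ' rfl).2 h4)
  · rintro ⟨a, h1, h2, h3⟩
    refine ⟨⟨a, Lset_mono hτ.le h2⟩, fun z hz => h1 hz, (LM_R τ rfl).2 h2, fun τ' hτ' h4 => ?_⟩
    obtain ⟨ζ, hζ, h5⟩ := Ordinal.mem_toZFSet_iff.1 (show τ'.1 ∈ τ.toZFSet from hτ')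
    exact h3 ζ hζ ((LM_R ζ h5.symm).1 h4)

lemma LM_cI {β m n : Ordinal.{0}} (hm : m < β) (hn : n < β) :
    (LM β).cI (LM.o m hm) (LM.o n hn) ↔ ∀ η < n, ∀ τ < β, NewV η τ → τ < m := by
  constructor
  · intro h η hη τ hτ h1
    have := h (LM.o η (hη.trans hn)) (Ordinal.toZFSet_mem_toZFSet_iff.2 hη) (LM.o τ hτ)
      ((LM_new _ _).2 h1)
    exact Ordinal.toZFSet_mem_toZFSet_iff.1 this
  · intro h η hη τ h1
    obtain ⟨ζ, hζ, h5⟩ := Ordinal.mem_toZFSet_iff.1 (show η.1 ∈ n.toZFSet from hη)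
    obtain ⟨a, h2, h3, h4⟩ := id h1
    obtain ⟨τ', hτ', h6⟩ := LM_ord h3.1
    have e1 : η = LM.o ζ (hζ.trans hn) := Subtype.ext h5.symm
    have e2 : τ = LM.o τ' hτ' := Subtype.ext h6
    subst e1 e2
    exact Ordinal.toZFSet_mem_toZFSet_iff.2 (h ζ hζ τ' hτ' ((LM_new _ _).1 h1))

lemma LM_cII {β n : Ordinal.{0}} (hn : n < β) :
    (LM β).cII (LM.o n hn) ↔ ∀ δ < β, ∃ τ < β, δ < τ ∧ NewV n τ := by
  constructor
  · intro h δ hδ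
    obtain ⟨τ, h1, h2⟩ := h (LM.o δ hδ) (LM_isO.2 (ZFSet.isOrdinal_toZFSet _))
    obtain ⟨a, h2', h3, h4⟩ := id h2
    obtain ⟨τ', hτ', h6⟩ := LM_ord h3.1
    have e2 : τ = LM.o τ' hτ' := Subtype.ext h6
    subst e2
    exact ⟨τ', hτ', Ordinal.toZFSet_mem_toZFSet_iff.1 h1, (LM_new _ _).1 h2⟩
  · intro h δ hδ
    obtain ⟨ζ, hζ, h6⟩ := LM_ord (LM_isO.1 hδ)
    have e2 : δ = LM.o ζ hζ := Subtype.ext h6
    subst e2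
    obtain ⟨τ, hτ, h1, h2⟩ := h ζ hζ
    exact ⟨LM.o τ hτ, Ordinal.toZFSet_mem_toZFSet_iff.2 h1, (LM_new _ _).2 h2⟩

end Pool.MP_dc7230_lc
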