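import Mathlib
import Pool.Agent.Lib.MP_dc7230_lc.NewV

/-!
# MP_dc7230_lc: the system of codes
-/

namespace Pool.MP_dc7230_lc

open Set Cardinal

/-! ### Ordinals below `ω₂` -/

noncomputable def ow (w : W) : Ordinal.{0} := (Ordinal.ToType.mk.symm w : Iio (Ordinal.omega 2)).1

lemma ow_lt (w : W) : ow w < Ordinal.omega 2 := (Ordinal.ToType.mk.symm w).2

lemma ow_lt_ow {a b : W} : ow a < ow b ↔ a < b :=
  (Ordinal.ToType.mk (o := Ordinal.omega 2)).symm.lt_iff_lt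

lemma ow_le_ow {a b : W} : ow a ≤ ow b ↔ a ≤ b :=
  (Ordinal.ToType.mk (o := Ordinal.omega 2)).symm.le_iff_le

lemma exists_ow {ζ : Ordinal.{0}} (h : ζ < Ordinal.omega 2) : ∃ w : W, ow w = ζ := by
  refine ⟨Ordinal.ToType.mk ⟨ζ, h⟩, ?_⟩
  unfold ow
  rw [OrderIso.symm_apply_apply]

lemma lim_om2 : Order.IsSuccLimit (Ordinal.omega 2) := by
  rw [← Cardinal.ord_aleph]
  exact Cardinal.isSuccLimit_ord (Cardinal.aleph0_le_aleph 2)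

lemma lim_omega2 : ∀ δ < Ordinal.omega 2, ∃ ε < Ordinal.omega 2, δ < ε := by
  intro δ hδ
  exact ⟨Order.succ δ, lim_om2.succ_lt hδ, Order.lt_succ δ⟩

/-! ### Traces -/

variable {μ ν : Ordinal.{0}} (F : Filt μ ν) (γs : Ordinal.{0})

/-- `c'` is the trace of `c` at `δ` -/
def Tr (γ : Ordinal.{0}) (c : Cd) (δ : W) (c' : Cd) : Prop :=
  γs ≤ ow δ ∧ ow δ < γ ∧ IsCode F (ow δ) c' ∧ ∃ σ, Conn F (ow δ) γ c'.pr c.pr σ

def CC (γ : Ordinal.{0}) (c : Cd) : Set W := {δ | ∃ c', Tr F γs γ c δ c'}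

open Classical in
noncomputable def RS (γ : Ordinal.{0}) (δ : W) (c : Cd) : Cd :=
  if h : ∃ c', Tr F γs γ c δ c' then h.choose else c

variable {F γs}

lemma Tr.unique {γ : Ordinal.{0}} (hγ : γ ≤ Ordinal.omega 2) {c c' c'' : Cd} {δ : W}
    (h : Tr F γs γ c δ c') (h' : Tr F γs γ c δ c'') : c' = c'' := by
  obtain ⟨-, h1, h2, σ, h3⟩ := h
  obtain ⟨-, h1', h2', σ', h3'⟩ := h'
  exact code_unique h1.le hγ h2 h2' h3 h3'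

lemma RS_spec {γ : Ordinal.{0}} {c : Cd} {δ : W} (h : δ ∈ CC F γs γ c) :
    Tr F γs γ c δ (RS F γs γ δ c) := by
  unfold RS
  rw [dif_pos (show ∃ c', Tr F γs γ c δ c' from h)]
  exact Exists.choose_spec h

lemma RS_eq {γ : Ordinal.{0}} (hγ : γ ≤ Ordinal.omega 2) {c c' : Cd} {δ : W}
    (h : Tr F γs γ c δ c') : RS F γs γ δ c = c' :=
  (RS_spec ⟨c', h⟩).unique hγ h

lemma Tr.trans {γ : Ordinal.{0}} (hγ : γ ≤ Ordinal.omega 2) {c c' c'' : Cd} {δ ε : W}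
    (h : Tr F γs γ c δ c') (h' : Tr F γs (ow δ) c' ε c'') : Tr F γs γ c ε c'' := by
  obtain ⟨h0, h1, h2, σ, h3⟩ := h
  obtain ⟨h0', h1', h2', σ', h3'⟩ := h'
  exact ⟨h0', h1'.trans h1, h2', _, Conn.trans h1'.le h1.le hγ h3' h3⟩

lemma Tr.factor {γ : Ordinal.{0}} (hγ : γ ≤ Ordinal.omega 2) {c c' c'' : Cd} {δ ε : W}
    (h : Tr F γs γ c δ c') (h' : Tr F γs γ c ε c'') (hεδ : ε < δ) :
    Tr F γs (ow δ) c' ε c'' := by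
  obtain ⟨h0, h1, h2, σ, h3⟩ := h
  obtain ⟨h0', h1', h2', σ', h3'⟩ := h'
  have h4 := ow_lt_ow.2 hεδ
  obtain ⟨ρ, hρ⟩ := Conn.factor h2'.2 h4.le h1.le hγ h3' h3
  exact ⟨h0', h4, h2', ρ, hρ⟩

lemma CC_rs {γ : Ordinal.{0}} (hγ : γ ≤ Ordinal.omega 2) {c c' : Cd} {δ : W}
    (h : Tr F γs γ c δ c') : CC F γs (ow δ) c' = CC F γs γ c ∩ Iio δ := by
  ext ε
  constructor
  · rintro ⟨c'', h'⟩
    exact ⟨⟨c'', h.trans hγ h'⟩, ow_lt_ow.1 h'.2.1⟩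
  · rintro ⟨⟨c'', h'⟩, h2⟩
    exact ⟨c'', h.factor hγ h' h2⟩

lemma coh_CC {γ : Ordinal.{0}} (hγ : γ ≤ Ordinal.omega 2) (c : Cd) :
    CohAt (fun γ : W => {c | γs ≤ ow γ ∧ IsCode F (ow γ) c}) (fun γ c => CC F γs (ow γ) c)
      (fun γ δ c => RS F γs (ow γ) δ c) (CC F γs γ c) (fun δ => RS F γs γ δ c) := by
  intro δ hδ
  have h1 := RS_spec hδ
  refine ⟨⟨h1.1, h1.2.2.1⟩, CC_rs hγ h1, fun ε hε hεδ => ?_⟩
  have h2 := RS_spec hε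
  exact RS_eq (h1.2.1.le.trans hγ) (h1.factor hγ h2 hεδ)

theorem lim_CC {γ : W} (hγ : ∀ s : ℕ → W, (∀ n, s n < γ) → ∃ δ < γ, ∀ n, s n ≤ δ)
    (D : Set W) (g : W → Cd) (hne : D.Nonempty) (hD : ∀ δ ∈ D, δ < γ)
    (hcof : ∀ ε < γ, ∃ δ ∈ D, ε < δ)
    (hcoh : CohAt (fun γ : W => {c | γs ≤ ow γ ∧ IsCode F (ow γ) c})
      (fun γ c => CC F γs (ow γ) c) (fun γ δ c => RS F γs (ow γ) δ c) D g) :
    ∃ c ∈ {c | γs ≤ ow γ ∧ IsCode F (ow γ) c}, CC F γs (ow γ) c = D ∧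
      ∀ δ ∈ D, RS F γs (ow γ) δ c = g δ := by
  have hTr : ∀ δ ∈ D, ∀ ε ∈ D, ε < δ → Tr F γs (ow δ) (g δ) ε (g ε) := by
    intro δ hδ ε hε hεδ
    obtain ⟨h1, h2, h3⟩ := hcoh δ hδ
    have h4 : ε ∈ CC F γs (ow δ) (g δ) := by
      show ε ∈ (fun γ c => CC F γs (ow γ) c) δ (g δ)
      rw [h2]
      exact ⟨hε, hεδ⟩
    have h5 := RS_spec h4
    rwa [show RS F γs (ow δ) ε (g δ) = g ε from h3 ε hε hεδ] at h5
  have : Nonempty D := hne.to_subtype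
  obtain ⟨c', hc', hσ⟩ := lim_code (F := F) (I := D) (d := fun i => ow i.1)
    (fun i k h => ow_le_ow.2 h) (γ := ow γ) (ow_lt γ).le (fun i => ow_lt_ow.2 (hD i.1 i.2))
    (fun ε hε => by
      obtain ⟨w, rfl⟩ := exists_ow (hε.trans (ow_lt γ))
      obtain ⟨δ, hδ, h⟩ := hcof w (ow_lt_ow.1 hε)
      exact ⟨⟨δ, hδ⟩, ow_lt_ow.2 h⟩)
    (fun s => by
      obtain ⟨δ, hδ, h⟩ := hγ (fun n => (s n).1) (fun n => hD _ (s n).2)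
      obtain ⟨δ', hδ', h'⟩ := hcof δ hδ
      exact ⟨⟨δ', hδ'⟩, fun n => (h n).trans h'.le⟩)
    (c := fun i => g i.1) (fun i => (hcoh i.1 i.2).1.2)
    (fun i k h => by
      rcases h.eq_or_lt with h | h
      · subst h
        exact ⟨_, Conn.refl (ow_lt _).le _⟩
      · exact (hTr k.1 k.2 i.1 i.2 h).2.2.2)
  have hTr' : ∀ δ ∈ D, Tr F γs (ow γ) c' δ (g δ) := fun δ hδ =>
    ⟨(hcoh δ hδ).1.1, ow_lt_ow.2 (hD δ hδ), (hcoh δ hδ).1.2, hσ ⟨δ, hδ⟩⟩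
  obtain ⟨δ₀, hδ₀⟩ := hne
  refine ⟨c', ⟨(hTr' δ₀ hδ₀).1.trans (hTr' δ₀ hδ₀).2.1.le, hc'⟩, ?_, fun δ hδ =>
    RS_eq (ow_lt γ).le (hTr' δ hδ)⟩
  ext ε
  constructor
  · rintro ⟨c'', h⟩
    obtain ⟨δ, hδ, hεδ⟩ := hcof ε (ow_lt_ow.1 h.2.1)
    have h1 := (hTr' δ hδ).factor (ow_lt γ).le h hεδ
    have h2 : ε ∈ (fun γ c => CC F γs (ow γ) c) δ (g δ) := ⟨c'', h1⟩
    rw [(hcoh δ hδ).2.1] at h2
    exact h2.1
  · exact fun h => ⟨_, hTr' ε h⟩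

/-! ### Bounding -/

theorem exists_bound (F : Filt μ ν)
    (hlt : ∀ γ < Ordinal.omega 2, ∀ c, IsCode F γ c → c.β < Ordinal.omega 2) :
    ∃ γs < Ordinal.omega 2, ∀ γ < Ordinal.omega 2, γs ≤ γ →
      ∃ b < Ordinal.omega 2, ∀ c, IsCode F γ c → c.β < b := by
  by_contra hcon
  push Not at hcon
  have h0 : (0 : Ordinal.{0}) < Ordinal.omega 2 :=
    Ordinal.omega0_pos.trans_le (Ordinal.omega0_le_omega 2)
  obtain ⟨γ₀, hγ₀, -, hb₀⟩ := hcon 0 h0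
  have hn₀ : F.n γ₀ < Ordinal.omega 2 := (F.n_lt γ₀ hγ₀.le).trans (F.m_lt γ₀ hγ₀)
  have key : ∀ b < Ordinal.omega 2, ∃ τ < Ordinal.omega 2, b < τ ∧ NewV (F.n γ₀) τ := by
    intro b hb
    obtain ⟨c, hc, hbc⟩ := hb₀ (Order.succ b) (lim_om2.succ_lt hb)
    have hn : F.n γ₀ < c.β := (F.n_lt γ₀ hγ₀.le).trans hc.1
    have h1 := hc.2.cII
    rw [c.o_val hn] at h1
    obtain ⟨τ, hτ, h2, h3⟩ := (LM_cII hn).1 h1 b (Order.succ_le_iff.1 hbc)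
    exact ⟨τ, hτ.trans (hlt γ₀ hγ₀ c hc), h2, h3⟩
  obtain ⟨γ₁, hγ₁, h1, hb₁⟩ := hcon (Order.succ (F.n γ₀))
    (lim_om2.succ_lt hn₀)
  have h2 : F.n γ₀ < F.n γ₁ := (Order.succ_le_iff.1 h1).trans_le (F.n_ge γ₁ hγ₁.le)
  obtain ⟨τ, hτ, h3, h4⟩ := key (F.m γ₁) (F.m_lt γ₁ hγ₁)
  obtain ⟨c, hc, hbc⟩ := hb₁ (Order.succ τ) (lim_om2.succ_lt hτ)
  have hn : F.n γ₁ < c.β := (F.n_lt γ₁ hγ₁.le).trans hc.1
  have h5 := hc.2.cI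
  rw [c.o_val hn, c.o_val hc.1] at h5
  exact lt_asymm h3 ((LM_cI hc.1 hn).1 h5 _ h2 τ (Order.succ_le_iff.1 hbc) h4)

/-! ### Recovering the subset from the thread -/

theorem thread_inj {c₁ c₂ : Cd}
    (htr : ∀ γ₀ < Ordinal.omega 2, ∃ γ, γ₀ ≤ γ ∧ γ < Ordinal.omega 2 ∧
      ∃ c' : Cd, IsCode F γ c' ∧ ∃ σ, Conn F γ (Ordinal.omega 2) c'.pr c₁.pr σ)
    (hγs : γs < Ordinal.omega 2)
    (hD : CC F γs (Ordinal.omega 2) c₁ = CC F γs (Ordinal.omega 2) c₂)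
    (hg : ∀ δ ∈ CC F γs (Ordinal.omega 2) c₁,
      RS F γs (Ordinal.omega 2) δ c₁ = RS F γs (Ordinal.omega 2) δ c₂) :
    ∀ ξ < ν, c₁.pr.M.E (c₁.pr.o ξ) c₁.pr.a ↔ c₂.pr.M.E (c₂.pr.o ξ) c₂.pr.a := by
  intro ξ hξ
  have h0 : (0 : Ordinal.{0}) < Ordinal.omega 2 :=
    Ordinal.omega0_pos.trans_le (Ordinal.omega0_le_omega 2)
  have hξ' : ξ < F.m (Ordinal.omega 2) := by
    have := F.n_lt (Ordinal.omega 2) le_rfl
    rw [F.n_top] at this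
    exact hξ.trans this
  obtain ⟨δ, hδ, ξ', hξ'', h1⟩ := F.e_cov _ h0 lim_omega2 le_rfl ξ hξ'
  obtain ⟨γ, h2, h3, c', hc', σ, hσ⟩ := htr (max δ γs) (max_lt hδ hγs)
  obtain ⟨w, rfl⟩ := exists_ow h3
  have h4 : Tr F γs (Ordinal.omega 2) c₁ w c' := ⟨(le_max_right _ _).trans h2, h3, hc', σ, hσ⟩
  have h5 : w ∈ CC F γs (Ordinal.omega 2) c₁ := ⟨c', h4⟩
  have h6 := hg w h5
  rw [RS_eq le_rfl h4] at h6
  rw [hD] at h5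
  have h7 := RS_spec h5
  rw [← h6] at h7
  obtain ⟨-, -, -, τ, hτ⟩ := h7
  have hδw : δ ≤ ow w := (le_max_left _ _).trans h2
  have h8 : F.e δ (ow w) ξ' < F.m (ow w) := F.e_lt _ _ _ hδw h3.le hξ''
  have h9 : F.e (ow w) (Ordinal.omega 2) (F.e δ (ow w) ξ') = ξ := by
    rw [F.e_comp _ _ _ _ hδw h3.le le_rfl hξ'', h1]
  have h10 := hσ.o _ h8
  have h11 := hτ.o _ h8
  rw [h9] at h10 h11
  rw [← h10, ← h11, ← hσ.a, ← hτ.a, hσ.el.E, hτ.el.E]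

/-! ### The system -/

theorem exists_sys (F : Filt μ ν)
    (hlt : ∀ γ < Ordinal.omega 2, ∀ c, IsCode F γ c → c.β < Ordinal.omega 2)
    (hcard : ∀ b < Ordinal.omega 2, #{c : Cd // c.β < b} ≤ aleph 1)
    (htr : ∀ c, IsCode F (Ordinal.omega 2) c → ∀ γ₀ < Ordinal.omega 2, ∃ γ, γ₀ ≤ γ ∧
      γ < Ordinal.omega 2 ∧
      ∃ c' : Cd, IsCode F γ c' ∧ ∃ σ, Conn F γ (Ordinal.omega 2) c'.pr c.pr σ)
    {ι : Type} (hι : aleph 2 < #ι) {A : ι → ZFSet.{0}} (hA : Function.Injective A)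
    (hAν : ∀ i, A i ⊆ ν.toZFSet)
    (htop : ∀ i, ∃ c : Cd, IsCode F (Ordinal.omega 2) c ∧
      ∀ ξ < ν, (c.pr.M.E (c.pr.o ξ) c.pr.a ↔ ξ.toZFSet ∈ A i)) : Nonempty (CodeSys Cd) := by
  obtain ⟨γs, hγs, hb⟩ := exists_bound F hlt
  choose ct hct hrec using htop
  refine ⟨{
    Code := fun γ => {c | γs ≤ ow γ ∧ IsCode F (ow γ) c}
    C := fun γ c => CC F γs (ow γ) c
    rs := fun γ δ c => RS F γs (ow γ) δ c
    C_lt := fun γ c _ δ hδ => ow_lt_ow.1 (RS_spec hδ).2.1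
    rs_mem := fun γ c _ δ hδ => ⟨(RS_spec hδ).1, (RS_spec hδ).2.2.1⟩
    C_rs := fun γ c _ δ hδ => CC_rs (ow_lt γ).le (RS_spec hδ)
    rs_rs := fun γ c _ δ hδ ε hε hεδ => RS_eq (ow_lt _).le
      ((RS_spec hδ).factor (ow_lt γ).le (RS_spec hε) hεδ)
    lim := fun γ hγ D g hne hD hcof hcoh => lim_CC hγ D g hne hD hcof hcoh
    card := fun γ => ?_
    ι := ι
    card_ι := hι
    DT := fun i => CC F γs (Ordinal.omega 2) (ct i)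
    gT := fun i δ => RS F γs (Ordinal.omega 2) δ (ct i)
    coh := fun i => coh_CC le_rfl (ct i)
    inj := fun i k hik hg => ?_ }⟩
  · by_cases h : γs ≤ ow γ
    · obtain ⟨b, hb1, hb2⟩ := hb (ow γ) (ow_lt γ) h
      refine le_trans ?_ (hcard b hb1)
      exact mk_le_mk_of_subset (fun c hc => hb2 c hc.2)
    · have : ({c | γs ≤ ow γ ∧ IsCode F (ow γ) c} : Set Cd) = ∅ := by
        ext c
        simp [h]
      rw [this]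
      simp
  · apply hA
    have h1 := thread_inj (htr _ (hct i)) hγs hik hg
    ext z
    constructor
    · intro hz
      obtain ⟨ξ, hξ, rfl⟩ := Ordinal.mem_toZFSet_iff.1 (hAν i hz)
      rwa [← hrec k ξ hξ, ← h1 ξ hξ, hrec i ξ hξ]
    · intro hz
      obtain ⟨ξ, hξ, rfl⟩ := Ordinal.mem_toZFSet_iff.1 (hAν k hz)
      rwa [← hrec i ξ hξ, h1 ξ hξ, hrec k ξ hξ]

end Pool.MP_dc7230_lc
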