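import Mathlib
import Pool.Agent.Lib.MP_dc7230_lc.Sys
import Pool.Agent.Lib.MP_dc7230_lc_h77.Top
import Pool.Agent.Lib.MP_dc7230_lc_h77.FiltE
import Pool.Agent.Lib.MP_dc7230_lc_h88.Tree
import Pool.Agent.Lib.MP_dc7230_lc_h88.Fin
import Pool.Agent.Lib.MP_dc7230_lc_h69.Club

/-!
# MP_dc7230_lc: assembly
-/

namespace Pool.MP_dc7230_lc

open Set Cardinal

theorem main (hCH : (2 : Cardinal.{0}) ^ ℵ₀ = aleph 1)
    (h2 : (2 : Cardinal.{0}) ^ aleph.{0} 1 = aleph 2) (h : ∀ S, IsKurepa S → ¬ IsContImage S) : IsInaccessibleInL (Ordinal.omega 3) := by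
  refine ⟨?_, fun β hβ f _ hf => reg3 β hβ f hf, fun ν₀ hν₀ hf => ?_⟩
  · rw [← Ordinal.omega_zero]
    exact Ordinal.omega_strictMono (by norm_num)
  · obtain ⟨ν, μ, hν, hνμ, hμ, hI, hII⟩ := exists_mu_nu h2
      (fun ν hν a ha hs => mem_Lset_omega3 hν ha hs) ⟨ν₀, hν₀, hf⟩
    obtain ⟨ι, A, hι, hA, hA'⟩ := exists_index ν hII
    have hcard : μ.card ≤ aleph 2 := by
      have h1 : μ.card < aleph 3 := by
        rw [← Cardinal.lt_ord, Cardinal.ord_aleph]
        exact hμ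
      have h2 : aleph 3 = Order.succ (aleph 2) := by
        rw [← Cardinal.aleph_succ]
        congr 1
      rw [h2] at h1
      exact Order.lt_succ_iff.1 h1
    obtain ⟨F⟩ := exists_filt μ ν hν hνμ hcard
    obtain ⟨T⟩ := exists_sys F (fun γ hγ c hc => code_lt hγ hc) (fun b hb => card_cd hb)
      (fun c hc γ₀ h₀ => exists_trace F hc h₀) hι hA (fun i => (hA' i).2)
      (fun i => exists_top_code F hνμ hμ hI hII (hA' i).1 (hA' i).2)
    obtain ⟨S, hS, hS'⟩ := tree_of_codes hCH T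
    exact h S hS hS'

end Pool.MP_dc7230_lc
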